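import Pool.Agent.Helper45.L.Defs
import Pool.Agent.Helper13.HG2.Defs
import Pool.Agent.Helper99.HG.CountR
import Pool.Agent.Helper97.L.Fin

/-!
# Project M (MP_e66f84_ag): quadratic twists of a double cover `X → Y` without rational branch point

`k` number field, `Y` any curve over `k`, `X : y² = h` any double cover of `Y` (`GoodCurve k h`),
no branch point is `k`-rational.  Then 100% of the twists `y² = c h`, and all curves above them,
have no Galois section.  Block statements.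
-/

set_option autoImplicit false

namespace Pool.Agent.M

open VC IntermediateField NumberField IsDedekindDomain Pool.Agent.SC Pool.Agent.L
open Pool.Agent.HG (Pr nm IsOdd Ctx Gd Ev Od StmtSel StmtMert StmtSplit StmtDer StmtBTL)

noncomputable section

/-! ## Classes of divisors of order a power of two, as roots of functions -/

section defs

variable {U : Type} [Field U]

/-- `w` is an `n`-th root of a function on `Y` all of whose orders are divisible by `n`. -/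
def UR (E K0 : Type) [Field E] [Field K0] [Algebra E U] [Algebra K0 U] (n : ℕ) (w : U) : Prop :=
  w ≠ 0 ∧ ∃ f : L0 E K0 (U := U), (f : U) = w ^ n ∧
    ∀ P : Place E (L0 E K0 (U := U)), (n : ℤ) ∣ ord P.ring f

/-- the field generated over `E K0` by all these roots -/
def NN (E K0 : Type) [Field E] [Field K0] [Algebra E U] [Algebra K0 U] (n : ℕ) :
    IntermediateField E U :=
  IntermediateField.adjoin E (Set.range (algebraMap K0 U) ∪ {w | UR E K0 n w})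

/-- `NN 2` and one more element -/
def NZ (E K0 : Type) [Field E] [Field K0] [Algebra E U] [Algebra K0 U] (z : U) :
    IntermediateField E U :=
  IntermediateField.adjoin E (Set.range (algebraMap K0 U) ∪ {w | UR E K0 2 w} ∪ {z})

/-- `φ` maps the place `Q` of `N` to the place `Q'` (where `φ` maps `N` to `N`) -/
def Moves {E : Type} [Field E] [Algebra E U] (φ : U ≃+* U) (N : IntermediateField E U)
    (Q Q' : Place E N) : Prop :=
  ∀ (x : U) (hx : x ∈ N) (hx' : φ x ∈ N), (⟨x, hx⟩ : N) ∈ Q.ring ↔ (⟨φ x, hx'⟩ : N) ∈ Q'.ring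

/-- the place `Q'` of `N'` lies over the place `Q` of `N` (where `N ≤ N'`) -/
def OverPl {E : Type} [Field E] [Algebra E U] {N N' : IntermediateField E U}
    (Q : Place E N) (Q' : Place E N') : Prop :=
  ∀ (x : U) (hx : x ∈ N) (hx' : x ∈ N'), (⟨x, hx⟩ : N) ∈ Q.ring ↔ (⟨x, hx'⟩ : N') ∈ Q'.ring

/-- the element of `L0` given by `x ∈ K0` -/
def inL0 {E K0 : Type} [Field E] [Field K0] [Algebra E U] [Algebra K0 U] (x : K0) :
    L0 E K0 (U := U) :=
  ⟨algebraMap K0 U x, IntermediateField.subset_adjoin _ _ ⟨x, rfl⟩⟩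

/-- `P` is a branch point of `y² = h` -/
def BPl {E K0 : Type} [Field E] [Field K0] [Algebra E U] [Algebra K0 U] (h : K0)
    (P : Place E (L0 E K0 (U := U))) : Prop := ¬ (2 : ℤ) ∣ ord P.ring (inL0 h)

/-- `z` is the square root of a function with odd order exactly at `b` and `b'` -/
def IsZ {E K0 : Type} [Field E] [Field K0] [Algebra E U] [Algebra K0 U]
    (b b' : Place E (L0 E K0 (U := U))) (z : U) : Prop :=
  z ≠ 0 ∧ ∃ f : L0 E K0 (U := U), (f : U) = z ^ 2 ∧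
    ∀ P : Place E (L0 E K0 (U := U)), ¬ (2 : ℤ) ∣ ord P.ring f ↔ P = b ∨ P = b'

/-- Some automorphism over `L0` which commutes with `φ` on the level `2 ^ m` is not trivial on the
level `2`. -/
def QM (E K0 : Type) [Field E] [Field K0] [Algebra E U] [Algebra K0 U] (m : ℕ) (φ : U ≃+* U) :
    Prop :=
  ∃ a : U ≃ₐ[E] U, (∀ x ∈ L0 E K0 (U := U), a x = x) ∧
    (∀ w : U, UR E K0 (2 ^ m) w → a (φ w) = φ (a w)) ∧ ∃ w : U, UR E K0 2 w ∧ a w ≠ w

open scoped Classical in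
/-- the sign of `φ` at the place `P` of `NN 2`: does it fix the places of `NZ z` above `P`? -/
def sgn {E K0 : Type} [Field E] [Field K0] [Algebra E U] [Algebra K0 U] (φ : U ≃+* U)
    (P : Place E (NN E K0 2 (U := U))) (z : U) : ℤˣ :=
  if ∀ Q : Place E (NZ E K0 z), OverPl P Q → Moves φ (NZ E K0 z) Q Q then 1 else -1

end defs

/-! ## Function fields -/

/-- BLOCK FT: the `n`-torsion of the divisor class group is finite. -/
def StmtFT : Prop :=
  ∀ (E F : Type) [Field E] [IsAlgClosed E] [CharZero E] [Field F] [Algebra E F],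
    IsFunctionField E F → ∀ n : ℕ, 0 < n → ∃ T : Finset F, (∀ t ∈ T, t ≠ 0) ∧
      ∀ f : F, f ≠ 0 → (∀ P : Place E F, (n : ℤ) ∣ ord P.ring f) → ∃ t ∈ T, ∃ l : F, f = t * l ^ n

/-- BLOCK W1 (duality): if `σ` multiplies a class of order `n` by the cyclotomic character, then it
fixes at least `n` classes of order dividing `n`. -/
def StmtW1 : Prop :=
  ∀ (E F : Type) [Field E] [IsAlgClosed E] [CharZero E] [Field F] [Algebra E F]
    (F0 : IntermediateField E F), IsFunctionField E F0 → ∀ (n : ℕ) (w : F), 0 < n → w ≠ 0 →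
    IntermediateField.adjoin E ((F0 : Set F) ∪ {w}) = ⊤ → ∀ fw : F0, (fw : F) = w ^ n →
    (∀ P : Place E F0, (n : ℤ) ∣ ord P.ring fw) → (∀ j : ℕ, 0 < j → j < n → w ^ j ∉ F0) →
    ∀ (σ : F ≃+* F) (τ : E ≃+* E) (χ : ℕ), (∀ c : E, σ (algebraMap E F c) = algebraMap E F (τ c)) →
    (∀ x : F, x ∈ F0 ↔ σ x ∈ F0) → (∀ ζ : E, ζ ^ n = 1 → τ ζ = ζ ^ χ) →
    (∃ l ∈ F0, σ w = l * w ^ χ) →
    ∃ f : Fin n → F0, ∀ i, f i ≠ 0 ∧ (∀ P : Place E F0, (n : ℤ) ∣ ord P.ring (f i)) ∧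
      (∃ l ∈ F0, σ (f i) = f i * l ^ n) ∧ ∀ j, j ≠ i → ∀ l : F0, f i ≠ f j * l ^ n

/-! ## Groups -/

/-- BLOCK W2 (Haar-Zariski): few elements of a compact group have a fixed point of large order on a
divisible `2`-power torsion group, if every open coset contains an element with finitely many fixed
points. -/
def StmtW2 : Prop :=
  ∀ (G : Type) [Group G] [TopologicalSpace G] [IsTopologicalGroup G] [CompactSpace G] [T2Space G]
    (P : Type) [AddCommGroup P] [DistribMulAction G P],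
    (∀ x : P, ∃ m : ℕ, 2 ^ m • x = 0) → (∀ x : P, ∃ y : P, 2 • y = x) →
    {x : P | 2 • x = 0}.Finite → (∀ x : P, IsOpen {g : G | g • x = x}) →
    (∀ H : Subgroup G, IsOpen (H : Set G) → ∀ x : G, ∃ g ∈ H, {p : P | (g * x) • p = p}.Finite) →
    ∀ ε : ℝ, 0 < ε → ∃ j : ℕ, 0 < j ∧ ∀ N : Subgroup G, N.Normal → IsOpen (N : Set G) →
      (∀ g ∈ N, ∀ p : P, 2 ^ j • p = 0 → g • p = p) →
      (Nat.card {q : G ⧸ N // ∃ g : G, (g : G ⧸ N) = q ∧
        ∃ p : P, 2 ^ j • p = 0 ∧ 2 ^ (j - 1) • p ≠ 0 ∧ g • p = p} : ℝ) ≤ ε * Nat.card (G ⧸ N)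

/-- BLOCK COC: Hilbert 90 for signs. -/
def StmtCOC : Prop :=
  ∀ (k E : Type) [Field k] [CharZero k] [Field E] [Algebra k E] [IsGalois k E] (S : Type)
    [Finite S] [MulAction (E ≃ₐ[k] E) S] (ε : (E ≃ₐ[k] E) → S → ℤˣ),
    (∀ g g' π, ε (g * g') π = ε g' π * ε g (g' • π)) →
    (∀ π, ∃ L : IntermediateField k E, FiniteDimensional k L ∧
      ∀ g : E ≃ₐ[k] E, (∀ x ∈ L, g x = x) → ε g π = 1 ∧ g • π = π) →
    ∃ δ : S → E, (∀ π, δ π ≠ 0) ∧ ∀ g π, g (δ π) = ((ε g π : ℤ) : E) * δ (g • π)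

/-- BLOCK FB: a finite set with Galois action is the set of roots of a polynomial. -/
def StmtFB : Prop :=
  ∀ (k E : Type) [Field k] [CharZero k] [Field E] [IsAlgClosed E] [Algebra k E]
    [Algebra.IsAlgebraic k E] (B : Type) [Finite B] [MulAction (E ≃ₐ[k] E) B],
    (∀ b : B, ∃ L : IntermediateField k E, FiniteDimensional k L ∧
      ∀ g : E ≃ₐ[k] E, (∀ x ∈ L, g x = x) → g • b = b) →
    ∃ (f : Polynomial k) (θ : B → E), f.Separable ∧ f.natDegree = Nat.card B ∧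
      Function.Injective θ ∧ (∀ x : E, Polynomial.aeval x f = 0 ↔ ∃ b, θ b = x) ∧
      ∀ (g : E ≃ₐ[k] E) (b : B), g (θ b) = θ (g • b)

/-! ## Arithmetic -/

open scoped Classical in
/-- BLOCK W3 (Frobenius density theorem, with bounded error). -/
def StmtW3 : Prop :=
  ∀ (k L : Type) [Field k] [NumberField k] [Field L] [NumberField L] [Algebra k L] [IsGalois k L]
    (C : Set (L ≃ₐ[k] L)),
    (∀ σ ∈ C, ∀ τ : L ≃ₐ[k] L, Subgroup.zpowers τ = Subgroup.zpowers σ → τ ∈ C) →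
    (∀ σ ∈ C, ∀ g : L ≃ₐ[k] L, g * σ * g⁻¹ ∈ C) →
    ∀ B : ℕ → Finset (Pr k), (∀ x v, v ∈ B x ↔ nm v ≤ x) →
    ∃ (C₀ : ℝ) (Bad Q : Set (Pr k)), Bad.Finite ∧
      (∀ v ∉ Bad, ∀ (P : Pr L) (σ : L ≃ₐ[k] L),
        P.asIdeal.comap (algebraMap (𝓞 k) (𝓞 L)) = v.asIdeal →
        (∀ z : L, P.valuation L z ≤ 1 → P.valuation L (σ z - z ^ nm v) < 1) → (v ∈ Q ↔ σ ∈ C)) ∧
      ∀ x : ℕ, 2 ≤ x → |∑ v ∈ (B x).filter (· ∈ Q), (1 : ℝ) / nm v -
        ((Nat.card C : ℝ) / Nat.card (L ≃ₐ[k] L)) * Real.log (Real.log x)| ≤ C₀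

/-- BLOCK HF: finitely many quadratic characters are unramified outside a finite set. -/
def StmtHF : Prop :=
  ∀ (k E : Type) [Field k] [NumberField k] [Field E] [IsAlgClosed E] [Algebra k E]
    [Algebra.IsAlgebraic k E] (L : IntermediateField k E), FiniteDimensional k L →
    ∀ Bad : Set (Pr k), Bad.Finite →
    {χ : L.fixingSubgroup →* ℤˣ | (∃ L' : IntermediateField k E, FiniteDimensional k L' ∧
        ∀ g : L.fixingSubgroup, (∀ x ∈ L', (g : E ≃ₐ[k] E) x = x) → χ g = 1) ∧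
      ∀ v ∉ Bad, ∀ O : ValuationSubring E, OverV v O → ∀ τ : L.fixingSubgroup,
        Inert O (τ : E ≃ₐ[k] E).toRingEquiv → χ τ = 1}.Finite

/-- BLOCK LFT: the Frobenius elements of `Ctx` lift to those of the algebraic closure. -/
def StmtLFT : Prop :=
  ∀ (k L E : Type) [Field k] [NumberField k] [Field L] [NumberField L] [Algebra k L] [IsGalois k L]
    [Field E] [IsAlgClosed E] [Algebra k E] [Algebra.IsAlgebraic k E] (ι : L →ₐ[k] E),
    ∃ M' : ℕ, M' ≠ 0 ∧ ∀ (f : Polynomial k) (X : Ctx k L f), M' ∣ X.M → ∀ v : Pr k, Gd X.M v →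
      ∃ (O : ValuationSubring E) (F : E ≃ₐ[k] E) (p n : ℕ), DecPt v O F p n ∧
        (∀ z : L, ι z ∈ O ↔ (X.P v).valuation L z ≤ 1) ∧ ∀ z : L, F (ι z) = ι (X.F v z)

/-! ## The geometric blocks -/

/-- BLOCK K4M: `K4` at an arbitrary level. -/
def StmtK4M : Prop :=
  ∀ (k K0 E U : Type) [Field k] [NumberField k] [Field K0] [Field E] [Field U] [Algebra k K0]
    [Algebra k E] [Algebra E U] [Algebra K0 U] [Algebra k U] [IsScalarTower k E U]
    [IsScalarTower k K0 U] (h : K0) (r : U), Geo k K0 E U h r →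
    ∀ N0 : IntermediateField E U, MM E K0 r ≤ N0 → IsFunctionField E N0 →
    ∃ Z : Finset U, ∀ N : IntermediateField E U, N0 ≤ N → (∀ z ∈ Z, z ∈ N) →
      IsFunctionField E N → ∀ b : N ≃ₐ[E] N,
      (∀ x : N, (x : U) ∈ L0 E K0 (U := U) → b x = x) → b ^ 2 = 1 →
      (∀ x : N, (x : U) = r → b x = -x) →
      ∀ Q Q' : Place E N, (∀ x ∈ Q.ring, b x ∈ Q.ring) → (∀ x ∈ Q'.ring, b x ∈ Q'.ring) →
      SamePlace N0 N Q Q'

/-- BLOCK LM (the local theorem at an arbitrary level; from `StmtK2`, `StmtK3`, `StmtK4M`,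
`StmtAR`). -/
def StmtLM : Prop :=
  ∀ (k K0 E U : Type) [Field k] [NumberField k] [Field K0] [Field E] [Field U] [Algebra k K0]
    [Algebra k E] [Algebra E U] [Algebra K0 U] [Algebra k U] [IsScalarTower k E U]
    [IsScalarTower k K0 U] (h : K0) (r : U), Geo k K0 E U h r → ∀ Z : Finset U,
    ∃ N : IntermediateField E U, MM E K0 r ≤ N ∧ IsFunctionField E N ∧ (∀ z ∈ Z, z ∈ N) ∧
      (∀ T : U ≃+* U, (∀ x : K0, T (algebraMap K0 U x) = algebraMap K0 U x) →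
        (∀ e : E, ∃ e' : E, T (algebraMap E U e) = algebraMap E U e') → ∀ z ∈ N, T z ∈ N) ∧
      ∃ Bad : Set (Pr k), Bad.Finite ∧ ∀ v ∉ Bad, ∀ c : k, c ≠ 0 →
        ∀ Φ : (E ≃ₐ[k] E) →* (U ≃+* U), Act (K0 := K0) r c Φ →
        ∀ (O : ValuationSubring E) (F : E ≃ₐ[k] E) (p f : ℕ), DecPt v O F p f →
        (∀ τ : E ≃ₐ[k] E, Inert O τ.toRingEquiv → (∀ d : E, d ^ 2 = algebraMap k E c → τ d = d) →
          ∀ z ∈ Z, Φ τ z = z) ∧
        (IsOdd v c → ∃ (b : Place E (L0 E K0 (U := U))) (Q : Place E N), BPl h b ∧ OverPl b Q ∧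
          Moves (Φ F) N Q Q ∧ ∀ τ : E ≃ₐ[k] E, Inert O τ.toRingEquiv →
            (∀ d : E, d ^ 2 = algebraMap k E c → τ d = -d) → Moves (Φ τ) N Q Q)

/-- BLOCK Z: square roots of functions with odd order exactly at two branch points. -/
def StmtZ : Prop :=
  ∀ (k K0 E U : Type) [Field k] [NumberField k] [Field K0] [Field E] [Field U] [Algebra k K0]
    [Algebra k E] [Algebra E U] [Algebra K0 U] [Algebra k U] [IsScalarTower k E U]
    [IsScalarTower k K0 U] (h : K0) (r : U), Geo k K0 E U h r →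
    ∀ b b' : Place E (L0 E K0 (U := U)), BPl h b → BPl h b' → b ≠ b' → ∃ z : U, IsZ b b' z

/-- BLOCK PI: the group of classes of order a power of two. -/
def StmtPI : Prop :=
  ∀ (k K0 E U : Type) [Field k] [NumberField k] [Field K0] [Field E] [Field U] [Algebra k K0]
    [Algebra k E] [Algebra E U] [Algebra K0 U] [Algebra k U] [IsScalarTower k E U]
    [IsScalarTower k K0 U] (h : K0) (r : U), Geo k K0 E U h r →
    ∀ (c : k) (Φ : (E ≃ₐ[k] E) →* (U ≃+* U)), c ≠ 0 → Act (K0 := K0) r c Φ →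
    ∃ (P : Type) (_ : AddCommGroup P) (_ : DistribMulAction (E ≃ₐ[k] E) P) (κ : U → P),
      (∀ p : P, ∃ (w : U) (j : ℕ), UR E K0 (2 ^ j) w ∧ κ w = p) ∧
      (∀ (w w' : U) (j j' : ℕ), UR E K0 (2 ^ j) w → UR E K0 (2 ^ j') w' →
        κ (w * w') = κ w + κ w') ∧
      (∀ (w : U) (j : ℕ), UR E K0 (2 ^ j) w → (κ w = 0 ↔ w ∈ L0 E K0 (U := U))) ∧
      (∀ (g : E ≃ₐ[k] E) (w : U) (j : ℕ), UR E K0 (2 ^ j) w → κ (Φ g w) = g • κ w) ∧
      (∀ p : P, ∃ m : ℕ, 2 ^ m • p = 0) ∧ (∀ p : P, ∃ q : P, 2 • q = p) ∧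
      {p : P | 2 • p = 0}.Finite ∧
      ∀ p : P, ∃ L : IntermediateField k E, FiniteDimensional k L ∧
        ∀ g : E ≃ₐ[k] E, (∀ x ∈ L, g x = x) → g • p = p

/-- BLOCK W4: every open coset contains an element (a power of a Frobenius element) with finitely
many fixed classes. -/
def StmtW4 : Prop :=
  ∀ (k K0 E U : Type) [Field k] [NumberField k] [Field K0] [Field E] [Field U] [Algebra k K0]
    [Algebra k E] [Algebra E U] [Algebra K0 U] [Algebra k U] [IsScalarTower k E U]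
    [IsScalarTower k K0 U] (h : K0) (r : U), Geo k K0 E U h r →
    ∀ (c : k) (Φ : (E ≃ₐ[k] E) →* (U ≃+* U)), c ≠ 0 → Act (K0 := K0) r c Φ →
    ∀ L : IntermediateField k E, FiniteDimensional k L → ∀ x : E ≃ₐ[k] E,
    ∃ g : E ≃ₐ[k] E, (∀ z ∈ L, g z = x z) ∧ ∃ T : Finset U, ∀ (w : U) (j : ℕ),
      UR E K0 (2 ^ j) w → Φ g w * w⁻¹ ∈ L0 E K0 (U := U) →
        ∃ t ∈ T, t ≠ 0 ∧ w * t⁻¹ ∈ L0 E K0 (U := U)

/-- BLOCK QW (Kummer theory, `StmtFT` and `StmtW1`): `QM` at a high level gives a fixed class of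
large order. -/
def StmtQW : Prop :=
  ∀ (k K0 E U : Type) [Field k] [NumberField k] [Field K0] [Field E] [Field U] [Algebra k K0]
    [Algebra k E] [Algebra E U] [Algebra K0 U] [Algebra k U] [IsScalarTower k E U]
    [IsScalarTower k K0 U] (h : K0) (r : U), Geo k K0 E U h r →
    ∃ K : ℕ, 0 < K ∧ ∀ (c : k) (Φ : (E ≃ₐ[k] E) →* (U ≃+* U)), c ≠ 0 → Act (K0 := K0) r c Φ →
    ∀ (j : ℕ) (σ : E ≃ₐ[k] E), 0 < j → QM E K0 (K * j) (Φ σ) →
    ∃ w : U, UR E K0 (2 ^ j) w ∧ w ^ 2 ^ (j - 1) ∉ L0 E K0 (U := U) ∧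
      Φ σ w * w⁻¹ ∈ L0 E K0 (U := U)

/-- BLOCK QMD (the density; from `StmtPI`, `StmtW4`, `StmtQW`, `StmtW2`). -/
def StmtQMD : Prop :=
  ∀ (k K0 E U : Type) [Field k] [NumberField k] [Field K0] [Field E] [Field U] [Algebra k K0]
    [Algebra k E] [Algebra E U] [Algebra K0 U] [Algebra k U] [IsScalarTower k E U]
    [IsScalarTower k K0 U] (h : K0) (r : U), Geo k K0 E U h r → ∀ ε : ℝ, 0 < ε →
    ∃ (m : ℕ) (L : IntermediateField k E), 1 ≤ m ∧ FiniteDimensional k L ∧ IsGalois k L ∧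
      ∀ (c : k) (Φ : (E ≃ₐ[k] E) →* (U ≃+* U)), c ≠ 0 → Act (K0 := K0) r c Φ →
      (Nat.card {τ : L ≃ₐ[k] L // ∃ σ : E ≃ₐ[k] E, (∀ x : L, σ x = τ x) ∧ QM E K0 m (Φ σ)} : ℝ) ≤
        ε * Nat.card (L ≃ₐ[k] L)

/-- BLOCK MU: the number of places of `NN 2` over a place of `L0`, and the uniqueness of the one
below a place of `NN (2 ^ m)` fixed by `φ`, if `QM` does not hold. -/
def StmtMU : Prop :=
  ∀ (k K0 E U : Type) [Field k] [NumberField k] [Field K0] [Field E] [Field U] [Algebra k K0]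
    [Algebra k E] [Algebra E U] [Algebra K0 U] [Algebra k U] [IsScalarTower k E U]
    [IsScalarTower k K0 U] (h : K0) (r : U), Geo k K0 E U h r →
    (∃ K : ℕ, ∀ b : Place E (L0 E K0 (U := U)),
      {P : Place E (NN E K0 2 (U := U)) | OverPl b P}.Finite ∧
      Nat.card {P : Place E (NN E K0 2 (U := U)) | OverPl b P} ≤ K) ∧
    ∀ (c : k) (Φ : (E ≃ₐ[k] E) →* (U ≃+* U)), c ≠ 0 → Act (K0 := K0) r c Φ →
    ∀ (m : ℕ) (σ : E ≃ₐ[k] E), 1 ≤ m → ¬ QM E K0 m (Φ σ) → ∀ (b : Place E (L0 E K0 (U := U)))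
      (P P' : Place E (NN E K0 2 (U := U))) (Q Q' : Place E (NN E K0 (2 ^ m) (U := U))),
      OverPl b P → OverPl b P' → OverPl P Q → OverPl P' Q' →
      Moves (Φ σ) (NN E K0 (2 ^ m)) Q Q → Moves (Φ σ) (NN E K0 (2 ^ m)) Q' Q' → P = P'

/-- BLOCK FIN (from `StmtLM`, `StmtFT`, `StmtHF`, `StmtFR`): on the level `2 ^ m` there are finitely many
actions. -/
def StmtFIN : Prop :=
  ∀ (k K0 E U : Type) [Field k] [NumberField k] [Field K0] [Field E] [Field U] [Algebra k K0]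
    [Algebra k E] [Algebra E U] [Algebra K0 U] [Algebra k U] [IsScalarTower k E U]
    [IsScalarTower k K0 U] (h : K0) (r : U), Geo k K0 E U h r → ∀ m : ℕ,
    ∃ (I : Type) (_ : Finite I) (c₁ : I → k) (Φ₁ : I → ((E ≃ₐ[k] E) →* (U ≃+* U))),
      (∀ i, c₁ i ≠ 0 ∧ Act (K0 := K0) r (c₁ i) (Φ₁ i)) ∧
      ∀ (c : k) (Φ : (E ≃ₐ[k] E) →* (U ≃+* U)), c ≠ 0 → Act (K0 := K0) r c Φ →
        ∃ i, ∀ (g : E ≃ₐ[k] E) (w : U), UR E K0 (2 ^ m) w → Φ g w = Φ₁ i g w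

/-- The arithmetic data of an action `Φ` of a twist by `c`, which agrees with `Φ₁` on the level
`2 ^ m`: square roots `δ b b'` of numbers, for all pairs of branch points. -/
structure IntDat {k K0 E U : Type} [Field k] [NumberField k] [Field K0] [Field E] [Field U]
    [Algebra k K0] [Algebra k E] [Algebra E U] [Algebra K0 U] [Algebra k U] (h : K0) (m : ℕ)
    (Φ₁ : (E ≃ₐ[k] E) →* (U ≃+* U))
    (zz : Place E (L0 E K0 (U := U)) → Place E (L0 E K0 (U := U)) → U) (Bad : Set (Pr k)) (c : k)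
    (δ : Place E (L0 E K0 (U := U)) → Place E (L0 E K0 (U := U)) → E) : Prop where
  ne : ∀ b b', BPl h b → BPl h b' → b ≠ b' → δ b b' ≠ 0
  eqv : ∀ (g : E ≃ₐ[k] E) b b' a a', BPl h b → BPl h b' → b ≠ b' → Moves (Φ₁ g) _ b a →
    Moves (Φ₁ g) _ b' a' → g (δ b b' ^ 2) = δ a a' ^ 2
  even : ∀ v ∉ Bad, ∀ (O : ValuationSubring E) (F : E ≃ₐ[k] E) (p f : ℕ), DecPt v O F p f →
    ∀ τ : E ≃ₐ[k] E, Inert O τ.toRingEquiv → (∀ d : E, d ^ 2 = algebraMap k E c → τ d = d) →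
    ∀ b b', BPl h b → BPl h b' → b ≠ b' → τ (δ b b') = δ b b'
  odd : ∀ v ∉ Bad, IsOdd v c → ∀ (O : ValuationSubring E) (F : E ≃ₐ[k] E) (p f : ℕ),
    DecPt v O F p f → ∃ (b₀ : Place E (L0 E K0 (U := U))) (P : Place E (NN E K0 2 (U := U)))
      (Q : Place E (NN E K0 (2 ^ m) (U := U))), BPl h b₀ ∧ OverPl b₀ P ∧ OverPl P Q ∧
      Moves (Φ₁ F) _ b₀ b₀ ∧ Moves (Φ₁ F) _ Q Q ∧
      (∀ τ : E ≃ₐ[k] E, Inert O τ.toRingEquiv → (∀ d : E, d ^ 2 = algebraMap k E c → τ d = -d) →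
        ∀ b b', BPl h b → BPl h b' → b ≠ b' →
          ((b = b₀ ∨ b' = b₀) → τ (δ b b') = -δ b b') ∧
          (b ≠ b₀ → b' ≠ b₀ → τ (δ b b') = δ b b')) ∧
      ∀ b b', BPl h b → BPl h b' → b ≠ b' → b ≠ b₀ → b' ≠ b₀ → ∀ n : ℕ,
        Moves (Φ₁ F ^ n) _ b b → Moves (Φ₁ F ^ n) _ b' b' →
        (F ^ n) (δ b b') = ((sgn (Φ₁ F ^ n) P (zz b b') : ℤ) : E) * δ b b'

/-- BLOCK INT (from `StmtLM`, `StmtFT`, `StmtCOC`). -/
def StmtINT : Prop :=
  ∀ (k K0 E U : Type) [Field k] [NumberField k] [Field K0] [Field E] [Field U] [Algebra k K0]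
    [Algebra k E] [Algebra E U] [Algebra K0 U] [Algebra k U] [IsScalarTower k E U]
    [IsScalarTower k K0 U] (h : K0) (r : U), Geo k K0 E U h r → ∀ m : ℕ, 1 ≤ m →
    ∀ (c₁ : k) (Φ₁ : (E ≃ₐ[k] E) →* (U ≃+* U)), c₁ ≠ 0 → Act (K0 := K0) r c₁ Φ₁ →
    ∀ zz : Place E (L0 E K0 (U := U)) → Place E (L0 E K0 (U := U)) → U,
    (∀ b b', BPl h b → BPl h b' → b ≠ b' → IsZ b b' (zz b b')) →
    ∃ Bad : Set (Pr k), Bad.Finite ∧ ∀ (c : k) (Φ : (E ≃ₐ[k] E) →* (U ≃+* U)), c ≠ 0 →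
      Act (K0 := K0) r c Φ →
      (∀ (g : E ≃ₐ[k] E) (w : U), UR E K0 (2 ^ m) w → Φ g w = Φ₁ g w) →
      ∃ δ : Place E (L0 E K0 (U := U)) → Place E (L0 E K0 (U := U)) → E,
        IntDat h m Φ₁ zz Bad c δ

/-- BLOCK NR: without rational branch point no branch point of `L0` is fixed by all `Φ σ`. -/
def StmtNR : Prop :=
  ∀ (k K0 E U : Type) [Field k] [NumberField k] [Field K0] [Field E] [Field U] [Algebra k K0]
    [Algebra k E] [Algebra E U] [Algebra K0 U] [Algebra k U] [IsScalarTower k E U]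
    [IsScalarTower k K0 U] (h : K0) (r : U), Geo k K0 E U h r →
    (∀ (c : k) (Φ : (E ≃ₐ[k] E) →* (U ≃+* U)), c ≠ 0 → Act (K0 := K0) r c Φ → NoRatBranch k h →
      ∀ b : Place E (L0 E K0 (U := U)), BPl h b → ∃ σ : E ≃ₐ[k] E, ¬ Moves (Φ σ) _ b b) ∧
    {b : Place E (L0 E K0 (U := U)) | BPl h b}.Finite ∧
    -- the places are permuted, in the same way by all actions
    ∀ (c : k) (Φ : (E ≃ₐ[k] E) →* (U ≃+* U)), c ≠ 0 → Act (K0 := K0) r c Φ →
      (∀ (σ : E ≃ₐ[k] E) (b : Place E (L0 E K0 (U := U))),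
        ∃! b' : Place E (L0 E K0 (U := U)), Moves (Φ σ) _ b b') ∧
      (∀ (σ : E ≃ₐ[k] E) (b b' : Place E (L0 E K0 (U := U))), Moves (Φ σ) _ b b' →
        (BPl h b ↔ BPl h b')) ∧
      (∀ (c' : k) (Φ' : (E ≃ₐ[k] E) →* (U ≃+* U)), c' ≠ 0 → Act (K0 := K0) r c' Φ' →
        ∀ (σ : E ≃ₐ[k] E) (b b' : Place E (L0 E K0 (U := U))),
          Moves (Φ σ) _ b b' ↔ Moves (Φ' σ) _ b b') ∧
      ∀ b : Place E (L0 E K0 (U := U)), ∃ L : IntermediateField k E, FiniteDimensional k L ∧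
        ∀ σ : E ≃ₐ[k] E, (∀ x ∈ L, σ x = x) → Moves (Φ σ) _ b b

end

end Pool.Agent.M
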