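import Pool.Agent.Helper13.HG2.Defs
import Pool.Agent.Helper99.HG.CountR

/-!
# Project M: the counting problem, with several options for every root
-/

set_option autoImplicit false

namespace Pool.Agent.HG

open Polynomial NumberField IsDedekindDomain
open scoped IntermediateField

noncomputable section

open scoped Classical in
/-- The counting problem: an option is a root fixed by the Frobenius element, a sign and an element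
of `Vι v t`. -/
def Ctx.cdM {k L : Type} [Field k] [NumberField k] [Field L] [NumberField L] [Algebra k L]
    [IsGalois k L] {f : k[X]} (X : Ctx k L f) (hm : 0 < X.m)
    (hfin : {v : Pr k | ¬ Gd X.M v}.Finite) (ι : Type) (Vι : Pr k → L → Finset ι)
    (g : Pr k → (Σ _ : L × ℤˣ, ι) → L → ℤˣ) : Pool.Agent.Helper99.HG.CD X.m ℤˣ where
  P := Pr k
  nm := nm
  Ex := hfin.toFinset
  O := Σ _ : L × ℤˣ, ι
  ι := L
  V := fun v => (X.Fx v ×ˢ Finset.univ).sigma fun o => Vι v o.1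
  cmp := fun o => X.cmp hm o.1.1
  I := fun v o j => ((X.R v).filter fun ρ => X.cmp hm ρ = j).erase o.1.1
  χ := fun v ρ q o => X.ch v (X.len v ρ) (aeval ρ (X.B q o.1.1))
  g := g

open scoped Classical in
/-- BLOCK G3M: the weights, with multiplicities. -/
def StmtG3M : Prop :=
  StmtMert → StmtSplit → StmtDer → ∀ (k L : Type) [Field k] [NumberField k] [Field L]
    [NumberField L] [Algebra k L] [IsGalois k L] (f : k[X]), (∀ a : k, eval a f ≠ 0) →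
    ∀ K : ℕ, ∃ ε : ℝ, 0 < ε ∧ ∀ (X : Ctx k L f) (hm : 0 < X.m)
      (hfin : {v : Pr k | ¬ Gd X.M v}.Finite) (ι : Type) (Vι : Pr k → L → Finset ι)
      (g : Pr k → (Σ _ : L × ℤˣ, ι) → L → ℤˣ), (∀ v t, (Vι v t).card ≤ K) →
      ∀ Q : Set (Pr k), (∀ v ∉ Q, Gd X.M v → ∀ t, (Vι v t).card ≤ 1) →
      ∀ B : ℕ → Finset (Pr k), (∀ x v, v ∈ B x ↔ nm v ≤ x) → ∀ δ C : ℝ, δ ≤ ε →
      (∀ x : ℕ, 2 ≤ x → |∑ v ∈ (B x).filter (· ∈ Q), (1 : ℝ) / nm v -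
        δ * Real.log (Real.log x)| ≤ C) →
      Pool.Agent.Helper99.HG.Sys (Pr k) nm ∧
      (∃ K' : ℕ, ∀ p, ((X.cdM hm hfin ι Vι g).V p).card ≤ K') ∧
      ∀ J : Finset (Fin X.m), Pool.Agent.Helper99.HG.TA (X.cdM hm hfin ι Vι g) J ∨
        Pool.Agent.Helper99.HG.TB (X.cdM hm hfin ι Vι g) J

/-- The data of one number `c`: numbers `D θ θ'` for all pairs of roots, for every prime `v ∈ S` a
root `t v` fixed by the Frobenius element, with the parities of the valuations of `D θ θ'`, and the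
quadratic characters of the `D θ θ'` given by the signs `sg`. -/
structure DatM {k L : Type} [Field k] [NumberField k] [Field L] [NumberField L] [Algebra k L]
    [IsGalois k L] {f : k[X]} (X : Ctx k L f) (c : k) (S : Finset (Pr k)) (D : L → L → L)
    (t : Pr k → L) (sg : Pr k → ℕ → L → L → ℤˣ) : Prop where
  hc : c ≠ 0
  hS : ∀ v, v ∈ S ↔ Gd X.M v ∧ IsOdd v c
  ne : ∀ θ ∈ X.Ω, ∀ θ' ∈ X.Ω, θ ≠ θ' → D θ θ' ≠ 0
  equiv : ∀ σ : L ≃ₐ[k] L, ∀ θ ∈ X.Ω, ∀ θ' ∈ X.Ω, θ ≠ θ' → σ (D θ θ') = D (σ θ) (σ θ')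
  t_mem : ∀ v ∈ S, t v ∈ X.Ω
  t_fix : ∀ v ∈ S, X.F v (t v) = t v
  good : ∀ (p : ℕ) (v : Pr k), p.Prime → ¬ p ∣ X.M → (p : 𝓞 k) ∈ v.asIdeal → v ∉ S →
    ∀ θ ∈ X.Ω, ∀ θ' ∈ X.Ω, θ ≠ θ' → Ev (X.P v) p (D θ θ')
  even : ∀ (p : ℕ) (v : Pr k), p.Prime → ¬ p ∣ X.M → (p : 𝓞 k) ∈ v.asIdeal → v ∈ S →
    ∀ θ ∈ X.Ω, ∀ θ' ∈ X.Ω, θ ≠ θ' → θ ≠ t v → θ' ≠ t v → Ev (X.P v) p (D θ θ')
  odd : ∀ (p : ℕ) (v : Pr k), p.Prime → ¬ p ∣ X.M → (p : 𝓞 k) ∈ v.asIdeal → v ∈ S →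
    ∀ θ ∈ X.Ω, ∀ θ' ∈ X.Ω, θ ≠ θ' → (θ = t v ∨ θ' = t v) → Od (X.P v) p (D θ θ')
  sign : ∀ (p : ℕ) (v : Pr k), p.Prime → ¬ p ∣ X.M → (p : 𝓞 k) ∈ v.asIdeal → v ∈ S →
    ∀ θ ∈ X.Ω, ∀ θ' ∈ X.Ω, θ ≠ θ' → θ ≠ t v → θ' ≠ t v → ∀ n : ℕ, 0 < n →
    (X.F v ^ n) θ = θ → (X.F v ^ n) θ' = θ' → ∀ a : ℤ,
    (X.P v).valuation L (D θ θ' * (p : L) ^ (2 * a)) = 1 →
    X.ch v n (D θ θ' * (p : L) ^ (2 * a)) = sg v n θ θ'

/-- BLOCK G1M: the relations. -/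
def StmtG1M : Prop :=
  StmtSel → ∀ (k L : Type) [Field k] [NumberField k] [Field L] [NumberField L] [Algebra k L]
    [IsGalois k L] (f : k[X]) (X : Ctx k L f), 4 ≤ f.natDegree →
    ∀ (hm : 0 < X.m) (hfin : {v : Pr k | ¬ Gd X.M v}.Finite) (ι : Type)
      (Vι : Pr k → L → Finset ι) (SG : Pr k → ι → ℕ → L → L → ℤˣ),
    ∃ (H : Type) (_ : Finite H) (g : H → Pr k → (Σ _ : L × ℤˣ, ι) → L → ℤˣ),
      ∀ (c : k) (S : Finset (Pr k)) (D : L → L → L) (t : Pr k → L) (i : Pr k → ι),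
      DatM X c S D t (fun v => SG v (i v)) → (∀ v ∈ S, i v ∈ Vι v (t v)) →
      ∃ h : H, Pool.Agent.Helper99.HG.Bad (X.cdM hm hfin ι Vι (g h)) S

/-- BLOCK G2M: Brun-Titchmarsh. -/
def StmtG2M : Prop :=
  StmtG2 → StmtBTL → StmtMert → ∀ (k L : Type) [Field k] [NumberField k] [Field L] [NumberField L]
    [Algebra k L] [IsGalois k L] (f : k[X]) (X : Ctx k L f)
    (hm : 0 < X.m) (hfin : {v : Pr k | ¬ Gd X.M v}.Finite) (ι : Type)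
    (Vι : Pr k → L → Finset ι) (g : Pr k → (Σ _ : L × ℤˣ, ι) → L → ℤˣ),
    Pool.Agent.Helper99.HG.BT (X.cdM hm hfin ι Vι g)

end

end Pool.Agent.HG
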