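import Pool.Agent.Helper13.M.DefsC
import Pool.Agent.Helper13.HG2.G1P

/-!
# Project M, block G1M: the relations
-/

set_option autoImplicit false

namespace Pool.Agent.HG

open Polynomial NumberField IsDedekindDomain
open scoped Pointwise IntermediateField

/-- an element which is fixed modulo `P` by the Frobenius element is congruent to an element of `k` -/
theorem exists_alpha13 {k L : Type} [Field k] [NumberField k] [Field L] [NumberField L] [Algebra k L]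
    {v : Pr k} {P : Pr L} (h : P.asIdeal.comap (algebraMap (𝓞 k) (𝓞 L)) = v.asIdeal) {t : L}
    (ht : P.valuation L t ≤ 1) (hf : P.valuation L (t ^ nm v - t) < 1) :
    ∃ a : 𝓞 k, P.valuation L (algebraMap k L a - t) < 1 := by
  classical
  have hm := P.isMaximal
  have hmv := v.isMaximal
  let _ : Field (𝓞 L ⧸ P.asIdeal) := Ideal.Quotient.field _
  let _ : Field (𝓞 k ⧸ v.asIdeal) := Ideal.Quotient.field _
  have hfin : Finite (𝓞 k ⧸ v.asIdeal) := Ideal.finiteQuotientOfFreeOfNeBot _ v.ne_bot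
  let _ : Fintype (𝓞 k ⧸ v.asIdeal) := Fintype.ofFinite _
  have hnm : nm v = Fintype.card (𝓞 k ⧸ v.asIdeal) := by
    rw [← Nat.card_eq_fintype_card]; rfl
  have hv1 : 1 < nm v := by
    rw [hnm]
    exact Fintype.one_lt_card
  obtain ⟨b, hb⟩ := exists_int_sub P ht
  -- the class of `b` is fixed
  have hb1 : P.valuation L ((b : L) ^ nm v - b) < 1 := by
    have h1 : (b : L) ^ nm v - b = ((b : L) ^ nm v - t ^ nm v) + (t ^ nm v - t) - ((b : L) - t) := by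
      ring
    rw [h1]
    refine Valuation.map_sub_lt _ (Valuation.map_add_lt _ ?_ hf) hb
    have h2 : (b : L) ^ nm v - t ^ nm v = ((b : L) - t) *
        ∑ i ∈ Finset.range (nm v), (b : L) ^ i * t ^ (nm v - 1 - i) := by
      rw [mul_comm, (Commute.all (b : L) t).geom_sum₂_mul]
    rw [h2, map_mul]
    refine mul_lt_one_of_lt_of_le hb ?_
    refine Valuation.map_sum_le _ fun i _ => ?_
    rw [map_mul, map_pow, map_pow]
    exact mul_le_one' (pow_le_one' (val_int _ _) _) (pow_le_one' ht _)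
  have hb2 : Ideal.Quotient.mk P.asIdeal b ^ nm v - Ideal.Quotient.mk P.asIdeal b = 0 := by
    rw [← map_pow, ← map_sub, Ideal.Quotient.eq_zero_iff_mem, ← val_int_lt]
    push_cast
    exact hb1
  let φ : 𝓞 k ⧸ v.asIdeal →+* 𝓞 L ⧸ P.asIdeal :=
    Ideal.quotientMap P.asIdeal (algebraMap (𝓞 k) (𝓞 L)) (h.ge : v.asIdeal ≤ _)
  have hinj : Function.Injective φ := Ideal.quotientMap_injective' h.le
  have h0 := FiniteField.X_pow_card_sub_X_ne_zero (𝓞 L ⧸ P.asIdeal) hv1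
  have hd := FiniteField.X_pow_card_sub_X_natDegree_eq (𝓞 L ⧸ P.asIdeal) hv1
  have hsub : (Finset.univ.image φ) ⊆
      (X ^ nm v - X : (𝓞 L ⧸ P.asIdeal)[X]).roots.toFinset := by
    intro y hy
    obtain ⟨z, -, rfl⟩ := Finset.mem_image.1 hy
    rw [Multiset.mem_toFinset, mem_roots h0, IsRoot.def]
    have h2 : z ^ nm v = z := by
      rw [hnm]
      exact FiniteField.pow_card z
    simp only [eval_sub, eval_pow, eval_X]
    rw [← map_pow, h2, sub_self]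
  have hcard : (X ^ nm v - X : (𝓞 L ⧸ P.asIdeal)[X]).roots.toFinset.card ≤
      (Finset.univ.image φ).card := by
    have h5 := (Multiset.toFinset_card_le (X ^ nm v - X : (𝓞 L ⧸ P.asIdeal)[X]).roots).trans
      (card_roots' _)
    rw [hd] at h5
    rw [Finset.card_image_of_injective _ hinj, Finset.card_univ, ← hnm]
    exact h5
  have heq := Finset.eq_of_subset_of_card_le hsub hcard
  have hmem : Ideal.Quotient.mk P.asIdeal b ∈ Finset.univ.image φ := by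
    rw [heq, Multiset.mem_toFinset, mem_roots h0, IsRoot.def]
    simpa using hb2
  obtain ⟨z, -, hz⟩ := Finset.mem_image.1 hmem
  obtain ⟨a, rfl⟩ := Ideal.Quotient.mk_surjective z
  refine ⟨a, ?_⟩
  have h3 : Ideal.Quotient.mk P.asIdeal (algebraMap (𝓞 k) (𝓞 L) a) =
      Ideal.Quotient.mk P.asIdeal b := hz
  rw [Ideal.Quotient.eq, ← val_int_lt] at h3
  have hco : algebraMap k L (a : k) = ((algebraMap (𝓞 k) (𝓞 L) a : 𝓞 L) : L) :=
    (IsScalarTower.algebraMap_apply (𝓞 k) k L a).symm.trans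
      (IsScalarTower.algebraMap_apply (𝓞 k) (𝓞 L) L a)
  have h4 : algebraMap k L (a : k) - t = (((algebraMap (𝓞 k) (𝓞 L) a - b : 𝓞 L)) : L) +
      ((b : L) - t) := by
    rw [hco]
    push_cast
    ring
  rw [h4]
  exact Valuation.map_add_lt _ h3 hb

/-- The valuations of the `D θ θ'`, in terms of numbers `α v`. -/
structure BadV {k L : Type} [Field k] [NumberField k] [Field L] [NumberField L] [Algebra k L]
    (f : k[X]) (M : ℕ) (c : k) (α : HeightOneSpectrum (𝓞 k) → 𝓞 k) (D : L → L → L) : Prop where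
  ne : ∀ θ ∈ f.rootSet L, ∀ θ' ∈ f.rootSet L, θ ≠ θ' → D θ θ' ≠ 0
  equiv : ∀ σ : L ≃ₐ[k] L, ∀ θ ∈ f.rootSet L, ∀ θ' ∈ f.rootSet L, θ ≠ θ' →
    σ (D θ θ') = D (σ θ) (σ θ')
  good : ∀ (p : ℕ) (v : HeightOneSpectrum (𝓞 k)) (P : HeightOneSpectrum (𝓞 L)), Over M p v P →
    Ev v p c → ∀ θ ∈ f.rootSet L, ∀ θ' ∈ f.rootSet L, θ ≠ θ' → Ev P p (D θ θ')
  even : ∀ (p : ℕ) (v : HeightOneSpectrum (𝓞 k)) (P : HeightOneSpectrum (𝓞 L)), Over M p v P →
    Od v p c → ∀ θ ∈ f.rootSet L, ∀ θ' ∈ f.rootSet L, θ ≠ θ' →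
    P.valuation L (algebraMap k L (α v) - θ) = 1 → P.valuation L (algebraMap k L (α v) - θ') = 1 →
    Ev P p (D θ θ')
  odd : ∀ (p : ℕ) (v : HeightOneSpectrum (𝓞 k)) (P : HeightOneSpectrum (𝓞 L)), Over M p v P →
    Od v p c → ∀ θ ∈ f.rootSet L, ∀ θ' ∈ f.rootSet L, θ ≠ θ' →
    (P.valuation L (algebraMap k L (α v) - θ) < 1 ∨
      P.valuation L (algebraMap k L (α v) - θ') < 1) → Od P p (D θ θ')

structure DatB {k L : Type} [Field k] [NumberField k] [Field L] [NumberField L] [Algebra k L]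
    [IsGalois k L] {f : k[X]} (X : Ctx k L f) (c : k) (S : Finset (Pr k)) (D : L → L → L)
    (α : Pr k → 𝓞 k) (t : Pr k → L) : Prop where
  hc : c ≠ 0
  hS : ∀ v, v ∈ S ↔ Gd X.M v ∧ IsOdd v c
  bad : BadV f X.M c α D
  t_mem : ∀ v ∈ S, t v ∈ X.Ω
  t_val : ∀ v ∈ S, (X.P v).valuation L (algebraMap k L (α v) - t v) < 1
  t_fix : ∀ v ∈ S, X.F v (t v) = t v

theorem ev_conj13 {k L : Type} [Field k] [NumberField k] [Field L] [NumberField L] [Algebra k L]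
    {σ : L ≃ₐ[k] L} {P P' : Pr L} (h : ∀ a : 𝓞 L, a ∈ P.asIdeal ↔ σ • a ∈ P'.asIdeal) {p : ℕ}
    {z : L} (hz : Ev P' p (σ z)) : Ev P p z := by
  obtain ⟨a, ha⟩ := hz
  refine ⟨a, ?_⟩
  rw [val_eq_conj h, map_mul, map_zpow₀, map_natCast]
  exact ha

theorem od_conj13 {k L : Type} [Field k] [NumberField k] [Field L] [NumberField L] [Algebra k L]
    {σ : L ≃ₐ[k] L} {P P' : Pr L} (h : ∀ a : 𝓞 L, a ∈ P.asIdeal ↔ σ • a ∈ P'.asIdeal) {p : ℕ}
    {z : L} (hz : Od P' p (σ z)) : Od P p z := by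
  obtain ⟨a, ha⟩ := hz
  refine ⟨a, ?_⟩
  rw [val_eq_conj h, map_mul, map_zpow₀, map_natCast]
  exact ha

/-- `v(c)` is even at `v` if `v ∉ S` -/
theorem not_od_of_ev13 {k : Type} [Field k] [NumberField k] {v : Pr k} {p : ℕ} (hp : p.Prime)
    (hv : (p : 𝓞 k) ∈ v.asIdeal) {c : k} (hc : c ≠ 0) (h : Ev v p c) (h' : Od v p c) : False := by
  obtain ⟨a, ha⟩ := h
  obtain ⟨b, hb⟩ := h'
  have h1 : v.valuation k (p : k) ^ (2 * a) * v.valuation k c = 1 := by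
    rw [mul_comm, ← map_zpow₀, ← map_mul, ha]
  have h2 : v.valuation k (p : k) ^ (2 * b + 1) * v.valuation k c = 1 := by
    rw [mul_comm, ← map_zpow₀, ← map_mul, hb]
  have h3 := mul_right_cancel₀ (val_ne_zero v hc) (h1.trans h2.symm)
  have h4 := zpow_right_injective₀ (zero_lt_iff.2 (val_p_ne hp)) (val_p_lt hv).ne h3
  omega

theorem DatM.exists_datB {k L : Type} [Field k] [NumberField k] [Field L] [NumberField L]
    [Algebra k L] [IsGalois k L] {f : k[X]} {X : Ctx k L f} {c : k} {S : Finset (Pr k)}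
    {D : L → L → L} {t : Pr k → L} {sg : Pr k → ℕ → L → L → ℤˣ} (h : DatM X c S D t sg) :
    ∃ α : Pr k → 𝓞 k, DatB X c S D α t := by
  classical
  have hα : ∀ v : Pr k, ∃ a : 𝓞 k, v ∈ S → (X.P v).valuation L (algebraMap k L a - t v) < 1 := by
    intro v
    by_cases hv : v ∈ S
    · obtain ⟨p, hp, hpM, hpv⟩ := ((h.hS v).1 hv).1
      have ht := X.int p v (X.P v) (X.isOver hp hpM hpv) _ ((X.mem_Ω _).1 (h.t_mem v hv))
      have h1 := X.frob v (t v) ht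
      rw [h.t_fix v hv, Valuation.map_sub_swap] at h1
      obtain ⟨a, ha⟩ := exists_alpha13 (X.comap v) ht h1
      exact ⟨a, fun _ => ha⟩
    · exact ⟨0, fun h => absurd h hv⟩
  choose α hα using hα
  -- the root at another prime above `v`
  have hroot : ∀ {p : ℕ} {v : Pr k} {P : Pr L}, Over X.M p v P → v ∈ S →
      ∃ σ : L ≃ₐ[k] L, (∀ a : 𝓞 L, a ∈ P.asIdeal ↔ σ • a ∈ (X.P v).asIdeal) ∧
        ∀ θ ∈ X.Ω, (P.valuation L (algebraMap k L (α v) - θ) < 1 ↔ σ θ = t v) := by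
    intro p v P ho hv
    obtain ⟨σ, hσ⟩ := exists_conj' ho.comap (X.comap v)
    refine ⟨σ, hσ, fun θ hθ => ?_⟩
    rw [val_lt_conj hσ, map_sub, AlgEquiv.commutes]
    constructor
    · intro h1
      by_contra hne
      have h3 := X.sep p v (X.P v) (X.isOver ho.prime ho.not_dvd ho.mem) _
        ((X.mem_Ω _).1 (X.conj_mem hθ σ)) _ ((X.mem_Ω _).1 (h.t_mem v hv)) hne
      have h4 : σ θ - t v = (algebraMap k L (α v) - t v) - (algebraMap k L (α v) - σ θ) := by ring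
      rw [h4] at h3
      have h5 := Valuation.map_sub_lt ((X.P v).valuation L) (hα v hv) h1
      rw [h3] at h5
      exact lt_irrefl _ h5
    · intro h1
      rw [h1]
      exact hα v hv
  have hmemS : ∀ {p : ℕ} {v : Pr k} {P : Pr L}, Over X.M p v P → (Od v p c → v ∈ S) := by
    intro p v P ho h1
    exact (h.hS v).2 ⟨⟨p, ho.prime, ho.not_dvd, ho.mem⟩,
      (X.isOdd_iff ho.prime ho.not_dvd ho.mem h.hc).2 h1⟩
  refine ⟨α, h.hc, h.hS, ?_, h.t_mem, hα, h.t_fix⟩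
  refine ⟨fun θ hθ θ' hθ' hne => h.ne θ ((X.mem_Ω _).2 hθ) θ' ((X.mem_Ω _).2 hθ') hne,
    fun σ θ hθ θ' hθ' hne => h.equiv σ θ ((X.mem_Ω _).2 hθ) θ' ((X.mem_Ω _).2 hθ') hne, ?_, ?_, ?_⟩
  · intro p v P ho hev θ hθ θ' hθ' hne
    rw [← X.mem_Ω] at hθ hθ'
    have hv : v ∉ S := fun hv => not_od_of_ev13 ho.prime ho.mem h.hc hev
      ((X.isOdd_iff ho.prime ho.not_dvd ho.mem h.hc).1 ((h.hS v).1 hv).2)
    obtain ⟨σ, hσ⟩ := exists_conj' ho.comap (X.comap v)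
    refine ev_conj13 hσ ?_
    rw [h.equiv σ θ hθ θ' hθ' hne]
    exact h.good p v ho.prime ho.not_dvd ho.mem hv _ (X.conj_mem hθ σ) _ (X.conj_mem hθ' σ)
      (fun h' => hne (σ.injective h'))
  · intro p v P ho hod θ hθ θ' hθ' hne h1 h2
    rw [← X.mem_Ω] at hθ hθ'
    have hv := hmemS ho hod
    obtain ⟨σ, hσ, hr⟩ := hroot ho hv
    refine ev_conj13 hσ ?_
    rw [h.equiv σ θ hθ θ' hθ' hne]
    refine h.even p v ho.prime ho.not_dvd ho.mem hv _ (X.conj_mem hθ σ) _ (X.conj_mem hθ' σ)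
      (fun h' => hne (σ.injective h')) (fun h' => ?_) (fun h' => ?_)
    · have := (hr θ hθ).2 h'
      rw [h1] at this
      exact lt_irrefl _ this
    · have := (hr θ' hθ').2 h'
      rw [h2] at this
      exact lt_irrefl _ this
  · intro p v P ho hod θ hθ θ' hθ' hne h1
    rw [← X.mem_Ω] at hθ hθ'
    have hv := hmemS ho hod
    obtain ⟨σ, hσ, hr⟩ := hroot ho hv
    refine od_conj13 hσ ?_
    rw [h.equiv σ θ hθ θ' hθ' hne]
    refine h.odd p v ho.prime ho.not_dvd ho.mem hv _ (X.conj_mem hθ σ) _ (X.conj_mem hθ' σ)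
      (fun h' => hne (σ.injective h')) ?_
    exact h1.imp (hr θ hθ).1 (hr θ' hθ').1

section dat

variable {k L : Type} [Field k] [NumberField k] [Field L] [NumberField L] [Algebra k L]
  [IsGalois k L] {f : k[X]} {X : Ctx k L f}

variable {c : k} {S : Finset (Pr k)} {D : L → L → L} {α : Pr k → 𝓞 k} {t : Pr k → L}
  (h : DatB X c S D α t)

include h

theorem DatB.thue {q : Pr k} (hq : q ∈ S) : ∃ p : ℕ, p.Prime ∧ ¬ p ∣ X.M ∧
    (p : 𝓞 k) ∈ q.asIdeal ∧ IsThue f X.M X.K p q (X.P q) (t q) (X.B q (t q)) := by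
  obtain ⟨p, hp, hpM, hpv⟩ := ((h.hS q).1 hq).1
  exact ⟨p, hp, hpM, hpv, X.thue p q (X.isOver hp hpM hpv) _ ((X.mem_Ω _).1 (h.t_mem q hq))
    (h.t_fix q hq)⟩

theorem DatB.val_other {p' : ℕ} {v' : Pr k} {P' : Pr L} (ho : Over X.M p' v' P') {θ : L}
    (hθ : θ ∈ X.Ω) {q : Pr k} (hq : q ∈ S) (hne : v' ≠ q)
    (hm : minpoly k (t q) = minpoly k θ) : P'.valuation L (aeval θ (X.B q (t q))) = 1 := by
  obtain ⟨p, hp, hpM, hpv, ht⟩ := h.thue hq
  exact ht.unit p' v' P' ho hne θ ((X.mem_Ω _).1 hθ) hm.symm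

theorem DatB.val_above {v' : Pr k} (hv : v' ∈ S) {p' : ℕ} {P' : Pr L} (ho : Over X.M p' v' P')
    {θ : L} (hθ : θ ∈ X.Ω) (hm : minpoly k (t v') = minpoly k θ) :
    (P'.valuation L (algebraMap k L (α v') - θ) = 1 →
      P'.valuation L (aeval θ (X.B v' (t v'))) = 1) ∧
    (P'.valuation L (algebraMap k L (α v') - θ) < 1 →
      P'.valuation L (aeval θ (X.B v' (t v'))) = P'.valuation L (p' : L)) := by
  have ht := X.thue p' v' (X.isOver ho.prime ho.not_dvd ho.mem) _ ((X.mem_Ω _).1 (h.t_mem v' hv))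
    (h.t_fix v' hv)
  exact ht.above (α v') (h.t_val v' hv) P' ho θ ((X.mem_Ω _).1 hθ) hm.symm

theorem DatB.minpoly_eq {v' : Pr k} (hv : v' ∈ S) {p' : ℕ} {P' : Pr L} (ho : Over X.M p' v' P')
    {θ : L} (hθ : θ ∈ X.Ω) (hr : P'.valuation L (algebraMap k L (α v') - θ) < 1) :
    minpoly k (t v') = minpoly k θ := by
  obtain ⟨σ, hσ⟩ := exists_conj' ho.comap (X.comap v')
  have h1 := (val_lt_conj hσ _).1 hr
  rw [map_sub, AlgEquiv.commutes] at h1
  have h2 : σ θ = t v' := by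
    by_contra hne
    have h3 := X.sep p' v' (X.P v') (X.isOver ho.prime ho.not_dvd ho.mem) _
      ((X.mem_Ω _).1 (X.conj_mem hθ σ)) _ ((X.mem_Ω _).1 (h.t_mem v' hv)) hne
    have h4 : σ θ - t v' = (algebraMap k L (α v') - t v') - (algebraMap k L (α v') - σ θ) := by ring
    rw [h4] at h3
    have h5 := Valuation.map_sub_lt ((X.P v').valuation L) (h.t_val v' hv) h1
    rw [h3] at h5
    exact lt_irrefl _ h5
  rw [← h2, minpoly.algEquiv_eq]

theorem DatB.val_Zp_not {p' : ℕ} {v' : Pr k} {P' : Pr L} (ho : Over X.M p' v' P') {θ : L}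
    (hθ : θ ∈ X.Ω) (hv : v' ∉ S) : P'.valuation L (Zp X S t θ) = 1 := by
  classical
  unfold Zp
  rw [map_prod]
  refine Finset.prod_eq_one fun q hq => ?_
  obtain ⟨hq, hm⟩ := Finset.mem_filter.1 hq
  exact h.val_other ho hθ hq (by rintro rfl; exact hv hq) hm

theorem DatB.val_fac {p' : ℕ} {v' : Pr k} {P' : Pr L} (ho : Over X.M p' v' P') {θ : L}
    (hθ : θ ∈ X.Ω) (hr : P'.valuation L (algebraMap k L (α v') - θ) = 1) {q : Pr k}
    (hq : q ∈ S) (hm : minpoly k (t q) = minpoly k θ) :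
    P'.valuation L (aeval θ (X.B q (t q))) = 1 := by
  by_cases hqv : v' = q
  · subst hqv
    exact (h.val_above hq ho hθ hm).1 hr
  · exact h.val_other ho hθ hq hqv hm

theorem DatB.val_Zp_unit {p' : ℕ} {v' : Pr k} {P' : Pr L} (ho : Over X.M p' v' P') {θ : L}
    (hθ : θ ∈ X.Ω) (hr : P'.valuation L (algebraMap k L (α v') - θ) = 1) :
    P'.valuation L (Zp X S t θ) = 1 := by
  classical
  unfold Zp
  rw [map_prod]
  refine Finset.prod_eq_one fun q hq => ?_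
  obtain ⟨hq, hm⟩ := Finset.mem_filter.1 hq
  exact h.val_fac ho hθ hr hq hm

theorem DatB.val_Zp_root {p' : ℕ} {v' : Pr k} {P' : Pr L} (ho : Over X.M p' v' P') {θ : L}
    (hθ : θ ∈ X.Ω) (hv : v' ∈ S) (hr : P'.valuation L (algebraMap k L (α v') - θ) < 1) :
    P'.valuation L (Zp X S t θ) = P'.valuation L (p' : L) := by
  classical
  have hm := h.minpoly_eq hv ho hθ hr
  unfold Zp
  rw [map_prod, ← (h.val_above hv ho hθ hm).2 hr]
  refine Finset.prod_eq_single_of_mem v' (Finset.mem_filter.2 ⟨hv, hm⟩) fun q hq hne => ?_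
  obtain ⟨hq, hm⟩ := Finset.mem_filter.1 hq
  exact h.val_other ho hθ hq (Ne.symm hne) hm

theorem DatB.ev_z {θ θ' : L} (hθ : θ ∈ X.Ω) (hθ' : θ' ∈ X.Ω) (hne : θ ≠ θ') (p' : ℕ) (P' : Pr L)
    (hp' : p'.Prime) (hpM : ¬ p' ∣ X.M) (hP' : (p' : 𝓞 L) ∈ P'.asIdeal) :
    Ev P' p' (D θ θ' * Zp X S t θ * Zp X S t θ') := by
  obtain ⟨v', hco, hmem⟩ := exists_under (k := k) P' hp' hP'
  have ho : Over X.M p' v' P' := ⟨hp', hpM, hmem, hco⟩
  have hr := (X.mem_Ω _).1 hθ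
  have hr' := (X.mem_Ω _).1 hθ'
  by_cases hv : v' ∈ S
  · have hod : Od v' p' c := (X.isOdd_iff hp' hpM hmem h.hc).1 ((h.hS v').1 hv).2
    have hle : ∀ x ∈ X.Ω, P'.valuation L (algebraMap k L (α v') - x) ≤ 1 := fun x hx =>
      val_sub_le (val_alg_int _ _) (X.int p' v' P' ho x ((X.mem_Ω _).1 hx))
    rcases lt_or_one (hle θ hθ) with h1 | h1
    · rcases lt_or_one (hle θ' hθ') with h2 | h2
      · exfalso
        have h3 := X.sep p' v' P' ho θ hr θ' hr' hne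
        have h4 : θ - θ' = (algebraMap k L (α v') - θ') - (algebraMap k L (α v') - θ) := by ring
        rw [h4] at h3
        have h5 := Valuation.map_sub_lt (P'.valuation L) h2 h1
        rw [h3] at h5
        exact lt_irrefl _ h5
      · obtain ⟨a, ha⟩ := h.bad.odd p' v' P' ho hod θ hr θ' hr' hne (Or.inl h1)
        refine ⟨a, ?_⟩
        rw [map_mul, map_mul, map_mul, h.val_Zp_root ho hθ hv h1, h.val_Zp_unit ho hθ' h2,
          mul_one, ← map_mul, ← map_mul, mul_assoc, ← zpow_one_add₀ (by exact_mod_cast hp'.ne_zero),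
          add_comm]
        exact ha
    · rcases lt_or_one (hle θ' hθ') with h2 | h2
      · obtain ⟨a, ha⟩ := h.bad.odd p' v' P' ho hod θ hr θ' hr' hne (Or.inr h2)
        refine ⟨a, ?_⟩
        rw [map_mul, map_mul, map_mul, h.val_Zp_unit ho hθ h1, h.val_Zp_root ho hθ' hv h2,
          mul_one, ← map_mul, ← map_mul, mul_assoc, ← zpow_one_add₀ (by exact_mod_cast hp'.ne_zero),
          add_comm]
        exact ha
      · obtain ⟨a, ha⟩ := h.bad.even p' v' P' ho hod θ hr θ' hr' hne h1 h2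
        refine ⟨a, ?_⟩
        rw [map_mul, map_mul, map_mul, h.val_Zp_unit ho hθ h1, h.val_Zp_unit ho hθ' h2,
          mul_one, mul_one, ← map_mul]
        exact ha
  · have hev : Ev v' p' c := X.ev_of_not_isOdd hp' hpM hmem h.hc
      (fun h1 => hv ((h.hS v').2 ⟨⟨p', hp', hpM, hmem⟩, h1⟩))
    obtain ⟨a, ha⟩ := h.bad.good p' v' P' ho hev θ hr θ' hr' hne
    refine ⟨a, ?_⟩
    rw [map_mul, map_mul, map_mul, h.val_Zp_not ho hθ hv, h.val_Zp_not ho hθ' hv, mul_one, mul_one,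
      ← map_mul]
    exact ha

theorem DatB.Zp_ne {θ : L} (hθ : θ ∈ X.Ω) : Zp X S t θ ≠ 0 := by
  classical
  unfold Zp
  rw [Finset.prod_ne_zero_iff]
  intro q hq
  obtain ⟨hq, hm⟩ := Finset.mem_filter.1 hq
  obtain ⟨p, hp, hpM, hpv, ht⟩ := h.thue hq
  exact ht.ne θ ((X.mem_Ω _).1 hθ) hm.symm

theorem DatB.z_ne {θ θ' : L} (hθ : θ ∈ X.Ω) (hθ' : θ' ∈ X.Ω) (hne : θ ≠ θ') :
    D θ θ' * Zp X S t θ * Zp X S t θ' ≠ 0 :=
  mul_ne_zero (mul_ne_zero (h.bad.ne _ ((X.mem_Ω _).1 hθ) _ ((X.mem_Ω _).1 hθ') hne)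
    (h.Zp_ne hθ)) (h.Zp_ne hθ')

theorem DatB.D_fixed {θ θ' : L} (hθ : θ ∈ X.Ω) (hθ' : θ' ∈ X.Ω) (hne : θ ≠ θ') {σ : L ≃ₐ[k] L}
    (hσ : σ θ = θ) (hσ' : σ θ' = θ') : σ (D θ θ') = D θ θ' := by
  rw [h.bad.equiv σ θ ((X.mem_Ω _).1 hθ) θ' ((X.mem_Ω _).1 hθ') hne, hσ, hσ']

theorem DatB.z_mem {θ θ' : L} (hθ : θ ∈ X.Ω) (hθ' : θ' ∈ X.Ω) (hne : θ ≠ θ') :
    D θ θ' * Zp X S t θ * Zp X S t θ' ∈ k⟮θ, θ'⟯ := by
  refine mem_adjoin_of_fixed fun σ hσ hσ' => ?_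
  rw [map_mul, map_mul, h.D_fixed hθ hθ' hne hσ hσ', Zp_fixed hσ, Zp_fixed hσ']

end dat

section rel

variable {k L : Type} [Field k] [NumberField k] [Field L] [NumberField L] [Algebra k L]
  [IsGalois k L] {f : k[X]} {X : Ctx k L f}
variable {c : k} {S : Finset (Pr k)} {D : L → L → L} {α : Pr k → 𝓞 k} {t : Pr k → L}
  (h : DatB X c S D α t)

include h

theorem DatB.val_root_one {v : Pr k} (hv : v ∈ S) {ρ : L} (hρ : ρ ∈ X.Ω) (hne : ρ ≠ t v) :
    (X.P v).valuation L (algebraMap k L (α v) - ρ) = 1 ∧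
      (X.P v).valuation L (t v - ρ) = 1 := by
  obtain ⟨p, hp, hpM, hpv⟩ := ((h.hS v).1 hv).1
  have h1 := X.sep p v (X.P v) (X.isOver hp hpM hpv) (t v) ((X.mem_Ω _).1 (h.t_mem v hv)) ρ
    ((X.mem_Ω _).1 hρ) hne.symm
  refine ⟨?_, h1⟩
  have h2 : algebraMap k L (α v) - ρ = (algebraMap k L (α v) - t v) + (t v - ρ) := by ring
  rw [h2, Valuation.map_add_eq_of_lt_right _ (by rw [h1]; exact h.t_val v hv), h1]

/-- the Thue factors are units fixed by a power of the Frobenius element -/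
theorem DatB.un_fac {v : Pr k} (hv : v ∈ S) {ρ : L} (hρ : ρ ∈ X.Ω) (hne : ρ ≠ t v) {n : ℕ}
    (hn : X.len v ρ ∣ n) {q : Pr k} (hq : q ∈ S) (hm : minpoly k (t q) = minpoly k ρ) :
    Un (X.P v) (nm v ^ n) (aeval ρ (X.B q (t q))) := by
  obtain ⟨p, hp, hpM, hpv⟩ := ((h.hS v).1 hv).1
  exact X.un_of_fixed (h.val_fac (X.isOver hp hpM hpv) hρ (h.val_root_one hv hρ hne).1 hq hm)
    (aeval_fixed _ (X.fix_of_dvd hn))

open scoped Classical in
/-- the class of the product of the Thue numbers -/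
theorem DatB.ch_Zp {v : Pr k} (hv : v ∈ S) {ρ : L} (hρ : ρ ∈ X.Ω) (hne : ρ ≠ t v) {n : ℕ}
    (hn : X.len v ρ ∣ n) :
    Un (X.P v) (nm v ^ n) (Zp X S t ρ) ∧ X.ch v n (Zp X S t ρ) =
      (∏ q ∈ S.filter (fun q => minpoly k (t q) = minpoly k ρ),
        X.ch v (X.len v ρ) (aeval ρ (X.B q (t q)))) ^ (n / X.len v ρ) := by
  obtain ⟨p, hp, hpM, hpv⟩ := ((h.hS v).1 hv).1
  have h2 := X.two_unit hp hpM hpv
  have hq := X.nm_odd hp hpM hpv
  have h1 : ∀ q ∈ S.filter (fun q => minpoly k (t q) = minpoly k ρ),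
      Un (X.P v) (nm v ^ n) (aeval ρ (X.B q (t q))) := fun q hq =>
    h.un_fac hv hρ hne hn (Finset.mem_filter.1 hq).1 (Finset.mem_filter.1 hq).2
  refine ⟨Un.prod _ _ h1, ?_⟩
  rw [X.ch_eq, Zp, eul_prod h2 hq.pow _ _ h1, ← Finset.prod_pow]
  refine Finset.prod_congr rfl fun q hqq => ?_
  obtain ⟨m, rfl⟩ := hn
  have h3 := h.un_fac hv hρ hne (dvd_refl (X.len v ρ)) (Finset.mem_filter.1 hqq).1
    (Finset.mem_filter.1 hqq).2
  rw [Nat.mul_div_cancel_left _ (X.len_pos v ρ), pow_mul, eul_lift h2 hq.pow h3 m]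
  rfl

open scoped Classical in
/-- **The relation.** -/
theorem DatM.rel13 {sg : Pr k → ℕ → L → L → ℤˣ} (hM : DatM X c S D t sg) (h4 : 4 ≤ f.natDegree)
    {v : Pr k} (hv : v ∈ S) {ρ : L}
    (hρ : ρ ∈ (X.R v).erase (t v)) (hst : ρ ≠ X.st v (t v)) {e d : L}
    (he : e ∈ k⟮ρ, X.st v (t v)⟯) (hd : d ∈ k⟮ρ, X.st v (t v)⟯)
    (hz : D ρ (X.st v (t v)) * Zp X S t ρ * Zp X S t (X.st v (t v)) = e * d ^ 2) :
    ∏ q ∈ S.filter (fun q => minpoly k (t q) = minpoly k ρ),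
        X.ch v (X.len v ρ) (aeval ρ (X.B q (t q))) =
      X.chE v (Nat.lcm (X.len v ρ) (X.len v (X.st v (t v)))) e *
      sg v (Nat.lcm (X.len v ρ) (X.len v (X.st v (t v)))) ρ (X.st v (t v)) *
      (∏ q ∈ S.filter (fun q => minpoly k (t q) = minpoly k (X.st v (t v))),
        X.ch v (X.len v (X.st v (t v))) (aeval (X.st v (t v)) (X.B q (t q)))) ^
        (Nat.lcm (X.len v ρ) (X.len v (X.st v (t v))) / X.len v (X.st v (t v))) := by
  obtain ⟨p, hp, hpM, hpv⟩ := ((h.hS v).1 hv).1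
  have ho := X.isOver hp hpM hpv
  have h2 := X.two_unit hp hpM hpv
  have hq := X.nm_odd hp hpM hpv
  have hfix := h.t_fix v hv
  have hodd := X.odd_quot h4 hfix hρ
  have hstm := X.st_mem h4 hfix
  obtain ⟨hρt, hρR⟩ := Finset.mem_erase.1 hρ
  obtain ⟨hst', hsR⟩ := Finset.mem_erase.1 hstm
  have hρΩ := X.R_subset v hρR
  have hsΩ := X.R_subset v hsR
  set s := X.st v (t v) with hs
  set n := Nat.lcm (X.len v ρ) (X.len v s) with hn
  have hdρ : X.len v ρ ∣ n := Nat.dvd_lcm_left _ _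
  have hds : X.len v s ∣ n := Nat.dvd_lcm_right _ _
  have hn0 : 0 < n := Nat.pos_of_ne_zero (Nat.lcm_ne_zero (X.len_pos v ρ).ne' (X.len_pos v s).ne')
  have hqn : Odd (nm v ^ n) := hq.pow
  have hFρ : (X.F v ^ n) ρ = ρ := X.fix_of_dvd hdρ
  have hFs : (X.F v ^ n) s = s := X.fix_of_dvd hds
  -- the factor of `D`
  obtain ⟨a, ha⟩ := hM.even p v hp hpM hpv hv ρ hρΩ s hsΩ hst hρt hst'
  have hFp : ∀ a : ℤ, (X.F v ^ n) ((p : L) ^ a) = (p : L) ^ a := fun a => by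
    rw [map_zpow₀, map_natCast]
  have hDF : (X.F v ^ n) (D ρ s * (p : L) ^ (2 * a)) = D ρ s * (p : L) ^ (2 * a) := by
    rw [map_mul, h.D_fixed hρΩ hsΩ hst hFρ hFs, hFp]
  have hDU := X.un_of_fixed ha hDF
  have hD : eul (X.P v) (nm v ^ n) (D ρ s * (p : L) ^ (2 * a)) = sg v n ρ s :=
    hM.sign p v hp hpM hpv hv ρ hρΩ s hsΩ hst hρt hst' n hn0 hFρ hFs a ha
  -- the Thue factors
  obtain ⟨hU1, hC1⟩ := h.ch_Zp hv hρΩ hρt hdρ
  obtain ⟨hU2, hC2⟩ := h.ch_Zp hv hsΩ hst' hds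
  rw [units_odd_pow _ hodd] at hC1
  -- the product
  have hp0 : (p : L) ≠ 0 := by exact_mod_cast hp.ne_zero
  have hz0 : D ρ s * Zp X S t ρ * Zp X S t s ≠ 0 := h.z_ne hρΩ hsΩ hst
  have hd0 : d ≠ 0 := by
    rintro rfl
    rw [zero_pow two_ne_zero, mul_zero] at hz
    exact hz0 hz
  have he1 : e * (d * (p : L) ^ a) ^ 2 = (D ρ s * (p : L) ^ (2 * a)) * Zp X S t ρ * Zp X S t s := by
    have e1 : (p : L) ^ (2 * a) = ((p : L) ^ a) ^ 2 := by
      rw [← zpow_natCast, ← zpow_mul, mul_comm]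
      rfl
    rw [e1, mul_pow, ← mul_assoc, ← hz]
    ring
  have hUz := (hDU.mul hU1).mul hU2
  have hE := X.chE_eq (v := v) (n := n) h2 hq (fixed_of_mem_adjoin he hFρ hFs)
    (mul_ne_zero hd0 (zpow_ne_zero a hp0)) (by
      rw [map_mul, fixed_of_mem_adjoin hd hFρ hFs, hFp]) (by rw [he1]; exact hUz.1)
  rw [he1, X.ch_eq, eul_mul h2 hqn (hDU.mul hU1) hU2, eul_mul h2 hqn hDU hU1, hD] at hE
  rw [X.ch_eq] at hC1 hC2
  rw [← hC1, ← hC2, hE]
  generalize sg v n ρ s = x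
  generalize eul (X.P v) (nm v ^ n) (Zp X S t ρ) = y
  generalize eul (X.P v) (nm v ^ n) (Zp X S t s) = w
  have hx := Int.units_mul_self x
  have hw := Int.units_mul_self w
  calc y = (x * x) * (w * w) * y := by rw [hx, hw, one_mul, one_mul]
    _ = x * y * w * x * w := by
      simp only [mul_comm, mul_left_comm]

end rel

section final

variable {k L : Type} [Field k] [NumberField k] [Field L] [NumberField L] [Algebra k L]
  [IsGalois k L] {f : k[X]} (X : Ctx k L f)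

open scoped Classical in
/-- the prescription which belongs to the classes `h` -/
noncomputable def ggM (hm : 0 < X.m) {ι : Type} (SG : Pr k → ι → ℕ → L → L → ℤˣ) (h : L → L → L)
    (v : Pr k) (o : Σ _ : L × ℤˣ, ι) (ρ : L) : ℤˣ :=
  (if ρ = X.st v o.1.1 then o.1.2 else
    X.chE v (Nat.lcm (X.len v ρ) (X.len v (X.st v o.1.1))) (h ρ (X.st v o.1.1)) *
      SG v o.2 (Nat.lcm (X.len v ρ) (X.len v (X.st v o.1.1))) ρ (X.st v o.1.1) *
      o.1.2 ^ (Nat.lcm (X.len v ρ) (X.len v (X.st v o.1.1)) / X.len v (X.st v o.1.1))) *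
  (if X.cmp hm o.1.1 = X.cmp hm ρ then X.ch v (X.len v ρ) (aeval ρ (X.B v o.1.1)) else 1)

open scoped Classical in
theorem bad_ofM (hm : 0 < X.m) (hfin : {v : Pr k | ¬ Gd X.M v}.Finite) (ι : Type)
    (Vι : Pr k → L → Finset ι)
    (g : Pr k → (Σ _ : L × ℤˣ, ι) → L → ℤˣ) (S : Finset (Pr k)) (hS : ∀ v ∈ S, Gd X.M v)
    (t : Pr k → L) (u : Pr k → ℤˣ) (i : Pr k → ι) (hi : ∀ v ∈ S, i v ∈ Vι v (t v))
    (ht : ∀ v ∈ S, t v ∈ X.Ω ∧ X.F v (t v) = t v)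
    (h : ∀ v ∈ S, ∀ ρ ∈ X.R v, ρ ≠ t v →
      ∏ q ∈ S.filter (fun q => q ≠ v ∧ X.cmp hm (t q) = X.cmp hm ρ),
        X.ch v (X.len v ρ) (aeval ρ (X.B q (t q))) = g v ⟨(t v, u v), i v⟩ ρ) :
    Pool.Agent.Helper99.HG.Bad (X.cdM hm hfin ι Vι g) S := by
  have hpf : Pool.Agent.Helper99.HG.pf (X.cdM hm hfin ι Vι g) S = S := by
    unfold Pool.Agent.Helper99.HG.pf
    refine Finset.filter_true_of_mem fun v hv => ?_
    intro h1
    exact (hfin.mem_toFinset.1 h1) (hS v hv)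
  refine ⟨fun v => ⟨(t v, u v), i v⟩, ?_⟩
  rw [hpf]
  intro (v : Pr k) hv
  refine ⟨?_, ?_⟩
  · refine Finset.mem_sigma.2 ⟨Finset.mem_product.2 ⟨?_, Finset.mem_univ _⟩, hi v hv⟩
    exact Finset.mem_filter.2 (ht v hv)
  intro j (ρ : L) hρ
  obtain ⟨hρt, hρ2⟩ := Finset.mem_erase.1 hρ
  have hρ3 : ρ ∈ X.R v ∧ X.cmp hm ρ = j := by
    exact (@Finset.mem_filter L (fun ρ => X.cmp hm ρ = j) (fun a => instDecidableEqFin _ _ _)
      (X.R v) ρ).1 hρ2
  obtain ⟨hρR, hρj⟩ := hρ3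
  subst hρj
  refine Eq.trans ?_ (h v hv ρ hρR hρt)
  refine Finset.prod_congr ?_ fun _ _ => rfl
  refine Finset.ext fun (q : Pr k) => ⟨fun h1 => ?_, fun h1 => ?_⟩
  · exact (@Finset.mem_filter _ _ _ _ _).2 ((@Finset.mem_filter _ _ _ _ _).1 h1)
  · exact (@Finset.mem_filter _ _ _ _ _).2 ((@Finset.mem_filter _ _ _ _ _).1 h1)

theorem g1M : StmtG1M := by
  intro hsel k L _ _ _ _ _ _ f X h4 hm hfin ι Vι SG
  classical
  -- the finite lists of classes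
  choose Fs hFs1 hFs2 using fun θ θ' : L => hsel k L k⟮θ, θ'⟯ X.M X.hM
  set FF : Finset L := insert 1 ((X.Ω ×ˢ X.Ω).biUnion fun x => Fs x.1 x.2) with hFF
  set hh : (X.Ω → X.Ω → FF) → L → L → L := fun h a b =>
    if hab : a ∈ X.Ω ∧ b ∈ X.Ω then (h ⟨a, hab.1⟩ ⟨b, hab.2⟩ : L) else 1 with hhh
  refine ⟨X.Ω → X.Ω → FF, inferInstance, fun h => ggM X hm SG (hh h), ?_⟩
  intro c S D t i hM hi
  obtain ⟨α, hdat⟩ := hM.exists_datB
  -- the classes
  have he : ∀ θ θ' : L, ∃ e : L, e ∈ FF ∧ (θ ∈ X.Ω → θ' ∈ X.Ω → θ ≠ θ' → e ∈ k⟮θ, θ'⟯ ∧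
      ∃ d ∈ k⟮θ, θ'⟯, D θ θ' * Zp X S t θ * Zp X S t θ' = e * d ^ 2) := by
    intro θ θ'
    by_cases h1 : θ ∈ X.Ω ∧ θ' ∈ X.Ω ∧ θ ≠ θ'
    · obtain ⟨h1, h2, h3⟩ := h1
      obtain ⟨e, he, d, hd, hz⟩ := hFs2 θ θ' _ (hdat.z_mem h1 h2 h3) (hdat.z_ne h1 h2 h3)
        (hdat.ev_z h1 h2 h3)
      exact ⟨e, Finset.mem_insert_of_mem (Finset.mem_biUnion.2 ⟨(θ, θ'),
        Finset.mem_product.2 ⟨h1, h2⟩, he⟩), fun _ _ _ => ⟨(hFs1 θ θ' e he).1, d, hd, hz⟩⟩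
    · exact ⟨1, Finset.mem_insert_self _ _, fun h2 h3 h4 => absurd ⟨h2, h3, h4⟩ h1⟩
  choose e heF he using he
  have hhe : ∀ {a b : L}, a ∈ X.Ω → b ∈ X.Ω →
      hh (fun a b => ⟨e a b, heF a b⟩) a b = e a b := by
    intro a b ha hb
    rw [hhh]
    exact dif_pos ⟨ha, hb⟩
  -- the options
  set u : Pr k → ℤˣ := fun v => ∏ q ∈ S.filter
    (fun q => minpoly k (t q) = minpoly k (X.st v (t v))),
      X.ch v (X.len v (X.st v (t v))) (aeval (X.st v (t v)) (X.B q (t q))) with hu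
  refine ⟨fun a b => ⟨e a b, heF a b⟩, ?_⟩
  refine bad_ofM X hm hfin ι Vι _ S (fun v hv => ((hdat.hS v).1 hv).1) t u i hi
    (fun v hv => ⟨hdat.t_mem v hv, hdat.t_fix v hv⟩) ?_
  intro v hv ρ hρR hρt
  have hρΩ := X.R_subset v hρR
  have htΩ := hdat.t_mem v hv
  -- the product over `q ≠ v`
  have hprod : ∏ q ∈ S.filter (fun q => q ≠ v ∧ X.cmp hm (t q) = X.cmp hm ρ),
      X.ch v (X.len v ρ) (aeval ρ (X.B q (t q))) =
      (∏ q ∈ S.filter (fun q => minpoly k (t q) = minpoly k ρ),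
        X.ch v (X.len v ρ) (aeval ρ (X.B q (t q)))) *
      (if X.cmp hm (t v) = X.cmp hm ρ then X.ch v (X.len v ρ) (aeval ρ (X.B v (t v))) else 1) := by
    have h1 : S.filter (fun q => q ≠ v ∧ X.cmp hm (t q) = X.cmp hm ρ) =
        (S.filter (fun q => minpoly k (t q) = minpoly k ρ)).erase v := by
      ext q
      simp only [Finset.mem_filter, Finset.mem_erase]
      constructor
      · rintro ⟨h1, h2, h3⟩
        exact ⟨h2, h1, (X.cmp_eq hm (hdat.t_mem q h1) hρΩ).1 h3⟩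
      · rintro ⟨h2, h1, h3⟩
        exact ⟨h1, h2, (X.cmp_eq hm (hdat.t_mem q h1) hρΩ).2 h3⟩
    rw [h1]
    split_ifs with h2
    · have h3 : v ∈ S.filter (fun q => minpoly k (t q) = minpoly k ρ) :=
        Finset.mem_filter.2 ⟨hv, (X.cmp_eq hm htΩ hρΩ).1 h2⟩
      rw [← Finset.prod_erase_mul _ _ h3, mul_assoc, Int.units_mul_self, mul_one]
    · have h3 : v ∉ S.filter (fun q => minpoly k (t q) = minpoly k ρ) := fun h3 =>
        h2 ((X.cmp_eq hm htΩ hρΩ).2 (Finset.mem_filter.1 h3).2)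
      rw [Finset.erase_eq_of_notMem h3, mul_one]
  rw [hprod]
  unfold ggM
  congr 1
  split_ifs with h1
  · have h1' : ρ = X.st v (t v) := h1
    rw [h1']
  · have hst := X.st_mem h4 (hdat.t_fix v hv)
    have hsΩ := X.R_subset v (Finset.mem_erase.1 hst).2
    obtain ⟨he1, d, hd, hz⟩ := he ρ (X.st v (t v)) hρΩ hsΩ h1
    have h5 : hh (fun a b => ⟨e a b, heF a b⟩) ρ (X.st v (t v)) = e ρ (X.st v (t v)) :=
      hhe hρΩ hsΩ
    change _ = X.chE v _ (hh (fun a b => ⟨e a b, heF a b⟩) ρ (X.st v (t v))) * _ * _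
    rw [h5]
    exact hM.rel13 hdat h4 hv (Finset.mem_erase.2 ⟨hρt, hρR⟩) h1 he1 hd hz

end final

end Pool.Agent.HG
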