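import Pool.Agent.Helper13.M.Fin3
import Pool.Agent.Helper5.M.G3M
import Pool.Agent.Helper57.M.G2M
import Pool.Agent.Helper45.HG.Sel
import Pool.Agent.Helper21.HG.Split
import Pool.Agent.Helper21.HG.Mert

/-!
# Project M: many branch points
-/

set_option autoImplicit false
set_option linter.unusedSectionVars false

namespace Pool.Agent.M

open VC IntermediateField NumberField IsDedekindDomain Pool.Agent.SC Pool.Agent.L
open Pool.Agent.HG (Pr nm IsOdd Ctx Gd Ev Od DatM StmtDer StmtSel StmtMert StmtSplit StmtBTL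
  StmtThue StmtG4 StmtG2 StmtG1M StmtG2M StmtG3M)

open scoped Classical in
/-- at least four branch points -/
theorem caseB (hFIN : StmtFIN) (hZ : StmtZ) (hINT : StmtINT) (hLFT : StmtLFT) (hMU : StmtMU)
    (hQMD : StmtQMD) (hW3 : StmtW3) (hDer : StmtDer) (hSel : StmtSel) (hMert : StmtMert)
    (hSplit : StmtSplit) (hBTL : StmtBTL) (hThue : StmtThue) (hG4 : StmtG4) (hG2 : StmtG2)
    (hG1M : StmtG1M) (hG2M : StmtG2M) (hG3M : StmtG3M)
    (hCount : Pool.Agent.Helper99.HG.StmtCountR)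
    {k K0 E U : Type} [Field k] [NumberField k]
    [Field K0] [Field E] [Field U] [Algebra k K0]
    [Algebra k E] [Algebra E U] [Algebra K0 U] [Algebra k U] [IsScalarTower k E U]
    [IsScalarTower k K0 U] {h : K0} {r : U} (G : Geo k K0 E U h r)
    {f : Polynomial k} {θ : Place E (L0 E K0 (U := U)) → E} (Gl' : GlE h r f θ)
    (hdeg : 4 ≤ f.natDegree) :
    Cnt (fun c : k => ∃ Φ : (E ≃ₐ[k] E) →* (U ≃+* U), Act (K0 := K0) r c Φ) := by
  have hclE : IsAlgClosed E := G.clE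
  have halg : Algebra.IsAlgebraic k E := G.algE
  have hcE : CharZero E := charZero_of_injective_algebraMap (algebraMap k E).injective
  have hNF : NumberField f.SplittingField := NumberField.of_module_finite k f.SplittingField
  have hGal : IsGalois k f.SplittingField := IsGalois.of_separable_splitting_field Gl'.sep
  have hsplit : (f.map (algebraMap k f.SplittingField)).Splits := Polynomial.SplittingField.splits f
  let ι : f.SplittingField →ₐ[k] E := IsAlgClosed.lift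
  -- a branch point
  obtain ⟨b₀, hb₀⟩ : ∃ b : Place E (L0 E K0 (U := U)), BPl h b := by
    obtain ⟨x, hx⟩ := IsAlgClosed.exists_aeval_eq_zero E f (by
      intro h0
      have := Polynomial.natDegree_eq_zero_iff_degree_le_zero.2 h0.le
      omega)
    obtain ⟨b, hb, _⟩ := Gl'.ex x hx
    exact ⟨b, hb⟩
  have hne : Nonempty (Place E (NN E K0 2 (U := U))) := exists_pl13 (b := b₀)
  obtain ⟨θL, bt, hGl⟩ := exists_gl13 Gl' ι b₀
  -- the number of places over a place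
  obtain ⟨⟨K, hK⟩, hMU2⟩ := hMU k K0 E U h r G
  -- the density
  obtain ⟨ε, hε, hG3⟩ := hG3M hMert hSplit hDer k f.SplittingField f Gl'.noroot K
  obtain ⟨m, Lm, hm1, hLf, hLg, hdens⟩ := hQMD k K0 E U h r G ε hε
  -- the finitely many actions
  obtain ⟨I, hI, c₁, Φ₁, hΦ₁, hcls⟩ := hFIN k K0 E U h r G m
  obtain ⟨zz, hzz⟩ := exists_zz13 hZ G
  choose Bad hBad hint using fun i => hINT k K0 E U h r G m hm1 (c₁ i) (Φ₁ i) (hΦ₁ i).1
    (hΦ₁ i).2 zz hzz
  obtain ⟨B, hB⟩ := Pool.Agent.HG.exists_B5 k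
  choose δ C₀ Bad' Q hδ hBad' hQ hsum using fun i => exists_Q13 hW3 G (hΦ₁ i).2 (m := m) Lm hLf hLg
    (hdens (c₁ i) (Φ₁ i) (hΦ₁ i).1 (hΦ₁ i).2) B hB
  -- the excluded number
  obtain ⟨M₁, hM₁, hM₁v⟩ := exists_M13
    ((Set.finite_iUnion hBad).union (Set.finite_iUnion hBad'))
  obtain ⟨M₂, hM₂, hlft⟩ := hLFT k f.SplittingField E ι
  obtain ⟨X, hMX, hm, hfin⟩ := hG4 hThue k f.SplittingField f Gl'.sep hsplit hdeg (M₁ * M₂)
    (mul_ne_zero hM₁ hM₂)
  have hM₁X : M₁ ∣ X.M := (Dvd.intro _ rfl).trans hMX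
  have hM₂X : M₂ ∣ X.M := (Dvd.intro_left _ rfl).trans hMX
  have hXBad : ∀ i, ∀ v ∈ Bad i, ¬ Gd X.M v := fun i v hv =>
    hM₁v X.M hM₁X v (Or.inl (Set.mem_iUnion.2 ⟨i, hv⟩))
  have hXBad' : ∀ i, ∀ v ∈ Bad' i, ¬ Gd X.M v := fun i v hv =>
    hM₁v X.M hM₁X v (Or.inr (Set.mem_iUnion.2 ⟨i, hv⟩))
  -- the Frobenius elements
  have hlift : ∀ v : Pr k, ∃ (O : ValuationSubring E) (F : E ≃ₐ[k] E) (p n : ℕ), Gd X.M v →
      DecPt v O F p n ∧ (∀ z : f.SplittingField, ι z ∈ O ↔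
        (X.P v).valuation f.SplittingField z ≤ 1) ∧ ∀ z, F (ι z) = ι (X.F v z) := by
    intro v
    by_cases hv : Gd X.M v
    · obtain ⟨O, F, p, n, h1⟩ := hlft f X hM₂X v hv
      exact ⟨O, F, p, n, fun _ => h1⟩
    · exact ⟨⊤, 1, 0, 0, fun h1 => absurd h1 hv⟩
  choose O F p n hdec using hlift
  -- the options
  let VS : I → Pr k → f.SplittingField → Set (Place E (NN E K0 2 (U := U))) := fun i v t =>
    {P | Gd X.M v ∧ OverPl (bt t) P ∧ ∃ Q : Place E (NN E K0 (2 ^ m) (U := U)), OverPl P Q ∧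
      Moves (Φ₁ i (F v)) _ Q Q}
  have hVSsub : ∀ i v t, VS i v t ⊆ {P : Place E (NN E K0 2 (U := U)) | OverPl (bt t) P} :=
    fun i v t P hP => hP.2.1
  have hVSfin : ∀ i v t, (VS i v t).Finite := fun i v t => (hK (bt t)).1.subset (hVSsub i v t)
  let Vι : I → Pr k → f.SplittingField → Finset (Place E (NN E K0 2 (U := U))) := fun i v t =>
    (hVSfin i v t).toFinset
  have hVιmem : ∀ i v t P, P ∈ Vι i v t ↔ P ∈ VS i v t := fun i v t P =>
    Set.Finite.mem_toFinset _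
  have hVιK : ∀ i v t, (Vι i v t).card ≤ K := by
    intro i v t
    refine le_trans ?_ (hK (bt t)).2
    have h1 : (Vι i v t).card = (VS i v t).ncard := (Set.ncard_eq_toFinset_card _ _).symm
    rw [h1]
    have h2 := Set.ncard_le_ncard (hVSsub i v t) (hK (bt t)).1
    rwa [← Nat.card_coe_set_eq {P : Place E (NN E K0 2 (U := U)) | OverPl (bt t) P}] at h2
  have hVι1 : ∀ i, ∀ v ∉ Q i, Gd X.M v → ∀ t, (Vι i v t).card ≤ 1 := by
    intro i v hvQ hgd t
    have hnQM : ¬ QM E K0 m (Φ₁ i (F v)) :=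
      hQ i v (fun h1 => hXBad' i v h1 hgd) (O v) (F v) (p v) (n v) (hdec v hgd).1 hvQ
    rw [Finset.card_le_one]
    intro P hP P' hP'
    rw [hVιmem] at hP hP'
    obtain ⟨_, h1, R, h2, h3⟩ := hP
    obtain ⟨_, h1', R', h2', h3'⟩ := hP'
    exact hMU2 (c₁ i) (Φ₁ i) (hΦ₁ i).1 (hΦ₁ i).2 m (F v) hm1 hnQM (bt t) P P' R R' h1 h1' h2 h2'
      h3 h3'
  -- the signs
  let SG : I → Pr k → Place E (NN E K0 2 (U := U)) → ℕ → f.SplittingField → f.SplittingField →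
      ℤˣ := fun i v P N x x' => sgn (Φ₁ i (F v) ^ N) P (zz (bt x) (bt x'))
  -- the relations
  choose H hH g hg using fun i => hG1M hSel k f.SplittingField f X hdeg hm hfin
    (Place E (NN E K0 2 (U := U))) (Vι i) (SG i)
  have hHI : Finite (Σ i, H i) := inferInstance
  obtain ⟨η, C, hη, hC, hbound⟩ := cover13 (H := Σ i, H i) (P := Pr k)
    (fun A => ∏ v ∈ A, nm v)
    (fun j A => Pool.Agent.Helper99.HG.Bad
      (X.cdM hm hfin (Place E (NN E K0 2 (U := U))) (Vι j.1) (g j.1 j.2)) A) (by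
    rintro ⟨i, j⟩
    obtain ⟨a1, a2, a3⟩ := hG3 X hm hfin (Place E (NN E K0 2 (U := U))) (Vι i) (g i j) (hVιK i)
      (Q i) (hVι1 i) B hB (δ i) (C₀ i) (hδ i) (hsum i)
    exact hCount X.m ℤˣ _ a1 a2 (hG2M hG2 hBTL hMert k f.SplittingField f X hm hfin _ (Vι i)
      (g i j)) a3)
  obtain ⟨N, hN⟩ := Pool.Agent.HG.cls_count (k := k) hSel X.hM X.unif
    (fun p v hp hpM hpv z hz => X.isOdd_iff hp hpM hpv hz)
  refine ⟨η, (N + 1) * C, hη, by positivity, fun Y hY T hT hTc => ?_⟩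
  have hY0 : (0 : ℝ) ≤ Y := Nat.cast_nonneg Y
  have hlog : 0 ≤ Real.log Y := Real.log_natCast_nonneg Y
  have h1 := hN (fun c : k => ∃ Φ : (E ≃ₐ[k] E) →* (U ≃+* U), Act (K0 := K0) r c Φ) Y
    (C * Y / Real.log Y ^ η) (by
      intro SS hSS
      refine hbound Y hY SS fun A hA => ?_
      obtain ⟨h2, c, hc, ⟨Φ, hΦ⟩, hAS⟩ := hSS A hA
      refine ⟨h2, ?_⟩
      obtain ⟨i, hi⟩ := hcls c Φ hc hΦ
      obtain ⟨δ', hδ'⟩ := hint i c Φ hc hΦ hi
      obtain ⟨D, t, P, hD, hP⟩ := exists_datM (hGl X (c₁ i) (Φ₁ i) (hΦ₁ i).1 (hΦ₁ i).2)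
        (hXBad i) hc hδ' (O := O) (F := F) (p' := p) (n := n) hdec hAS
      obtain ⟨j, hj⟩ := hg i c A D t P hD (by
        intro v hv
        rw [hVιmem]
        exact ⟨((hAS v).1 hv).1, hP v hv⟩)
      exact ⟨⟨i, j⟩, hj⟩) T hT hTc
  refine h1.trans ?_
  have h3 : 0 ≤ C * Y / Real.log Y ^ η := by positivity
  have h4 : (N : ℝ) * (C * Y / Real.log Y ^ η) ≤ (N + 1) * (C * Y / Real.log Y ^ η) :=
    mul_le_mul_of_nonneg_right (by linarith) h3
  refine h4.trans (le_of_eq ?_)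
  ring

end Pool.Agent.M
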