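import Pool.Agent.Helper13.M.All0
import Pool.Agent.Helper9.M.FT

/-!
# Project M: everything

**The final theorem.**  Let `k` be a number field, `K0` the function field of a curve `Y` over `k`
and `y² = h` a geometrically irreducible double cover of `Y` which is not rational, without
`k`-rational branch point.  Then almost all quadratic twists `y² = c h`, and all curves above them,
have no Galois section.
-/

set_option autoImplicit false

namespace Pool.Agent.M

theorem finM : StmtFinM := finM_of_FT fT

end Pool.Agent.M
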