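import Pool.Agent.Helper13.M.Fin5
import Pool.Agent.Helper45.L.K1
import Pool.Agent.Helper10.L.K2
import Pool.Agent.Helper71.L.AR
import Pool.Agent.Helper45.L.AllLoc
import Pool.Agent.Helper17.M.K4M
import Pool.Agent.Helper29.M.LM
import Pool.Agent.Helper29.M.QW
import Pool.Agent.Helper28.M.HF
import Pool.Agent.Helper28.M.Z
import Pool.Agent.Helper5.M.FB
import Pool.Agent.Helper57.M.COC
import Pool.Agent.Helper59.M.NR
import Pool.Agent.Helper45.M.INT
import Pool.Agent.Helper45.M.LFT
import Pool.Agent.Helper99.M.MU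
import Pool.Agent.Helper99.M.PI
import Pool.Agent.Helper99.M.FIN
import Pool.Agent.Helper97.M.QMD
import Pool.Agent.Helper88.M.StW2
import Pool.Agent.Helper79.M.W3
import Pool.Agent.Helper10.M.W1
import Pool.Agent.Helper22.M.W4All

/-!
# Project M: everything but `StmtFT`
-/

set_option autoImplicit false

namespace Pool.Agent.M

theorem finM_of_FT (hFT : StmtFT) : StmtFinM := by
  have hLM : StmtLM := lm (Pool.Agent.L.stmtK2 Pool.Agent.L.stmtK1) Pool.Agent.L.stmtK3 k4M
    Pool.Agent.L.stmtAR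
  have hFIN : StmtFIN := fin hLM hFT hf Pool.Agent.L.stmtFR Pool.Agent.L.stmtAR
  have hINT : StmtINT := int hLM hFT coc nR Pool.Agent.L.stmtAR
  have hQMD : StmtQMD := qMD (pI hFT) Pool.Agent.Helper22.M.w4 (qW hFT (w1 hFT)) w2
  exact finM_of Pool.Agent.L.stmtTR nR fb hFIN z hINT lft (mu hFT) hQMD w3

end Pool.Agent.M
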