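import Pool.Agent.Helper13.M.G1M
import Pool.Agent.Helper13.M.Defs
import Pool.Agent.Helper29.L.K5

/-!
# Project M, block DATM: from the data over the algebraic closure to the data of the counting problem
-/

set_option autoImplicit false

namespace Pool.Agent.M

open VC IntermediateField NumberField IsDedekindDomain Pool.Agent.SC Pool.Agent.L
open Pool.Agent.HG (Pr nm IsOdd Ctx Gd Ev Od DatM)

set_option linter.unusedSectionVars false

section val

variable {k E L : Type} [Field k] [NumberField k] [Field E] [Algebra k E] [Field L] [NumberField L]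
  [Algebra k L]

theorem lt_iff13 {O : ValuationSubring E} {P : Pr L} {ι : L →ₐ[k] E}
    (h : ∀ z : L, ι z ∈ O ↔ P.valuation L z ≤ 1) (z : L) :
    O.valuation (ι z) < 1 ↔ P.valuation L z < 1 := by
  rw [Pool.Agent.HG.val_lt_iff, ← h, map_inv₀, ← ValuationSubring.mem_nonunits_iff,
    ValuationSubring.mem_nonunits_iff_or, map_eq_zero]

theorem eq_iff13 {O : ValuationSubring E} {P : Pr L} {ι : L →ₐ[k] E}
    (h : ∀ z : L, ι z ∈ O ↔ P.valuation L z ≤ 1) (z : L) :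
    O.valuation (ι z) = 1 ↔ P.valuation L z = 1 := by
  have h1 := lt_iff13 h z
  have h2 := h z
  rw [← O.valuation_le_one_iff] at h2
  constructor
  · intro h3
    exact le_antisymm (h2.1 h3.le) (not_lt.1 fun h4 => absurd (h1.2 h4) (by rw [h3]; exact lt_irrefl _))
  · intro h3
    exact le_antisymm (h2.2 h3.le) (not_lt.1 fun h4 => absurd (h1.1 h4) (by rw [h3]; exact lt_irrefl _))

theorem eq_iffk13 {O : ValuationSubring E} {v : Pr k} (h : OverV v O) (x : k) :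
    O.valuation (algebraMap k E x) = 1 ↔ v.valuation k x = 1 := by
  have h1 : O.valuation (algebraMap k E x) < 1 ↔ v.valuation k x < 1 := by
    rw [Pool.Agent.HG.val_lt_iff, ← h, map_inv₀, ← ValuationSubring.mem_nonunits_iff,
      ValuationSubring.mem_nonunits_iff_or, map_eq_zero]
  have h2 := h x
  rw [← O.valuation_le_one_iff] at h2
  constructor
  · intro h3
    exact le_antisymm (h2.1 h3.le) (not_lt.1 fun h4 => absurd (h1.2 h4) (by rw [h3]; exact lt_irrefl _))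
  · intro h3
    exact le_antisymm (h2.2 h3.le) (not_lt.1 fun h4 => absurd (h1.1 h4) (by rw [h3]; exact lt_irrefl _))

/-- inertia fixes the square roots of units which it fixes -/
theorem inert_sqrt13 {O : ValuationSubring E} {τ : E ≃ₐ[k] E} (hτ : Inert O τ.toRingEquiv)
    (h2 : O.valuation (2 : E) = 1) {d : E} (hd : O.valuation (d ^ 2) = 1)
    (h : τ (d ^ 2) = d ^ 2) : τ d = d := by
  have hd1 : O.valuation d = 1 := by
    rw [map_pow] at hd
    exact (pow_eq_one_iff_of_nonneg zero_le two_ne_zero).1 hd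
  rw [map_pow] at h
  rcases sq_eq_sq_iff_eq_or_eq_neg.1 h with h3 | h3
  · exact h3
  · exfalso
    have h4 : O.valuation (τ d - d) < 1 := hτ.res d ((O.valuation_le_one_iff d).1 hd1.le)
    rw [h3, show -d - d = -(2 * d) by ring, Valuation.map_neg, map_mul, h2, hd1, one_mul] at h4
    exact lt_irrefl _ h4

end val

section main

variable {k E L : Type} [Field k] [NumberField k] [Field E] [IsAlgClosed E] [Algebra k E]
  [Algebra.IsAlgebraic k E] [Field L] [NumberField L] [Algebra k L] [IsGalois k L]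

omit [NumberField k] [IsAlgClosed E] [Algebra.IsAlgebraic k E] [NumberField L] in
/-- restriction to `L` -/
theorem exists_res13 (ι : L →ₐ[k] E) (g : E ≃ₐ[k] E) :
    ∃ σ : L ≃ₐ[k] L, ∀ z, g (ι z) = ι (σ z) := by
  let _ : Algebra L E := ι.toRingHom.toAlgebra
  have : IsScalarTower k L E := IsScalarTower.of_algebraMap_eq fun x => (ι.commutes x).symm
  exact ⟨g.restrictNormal L, fun z => (AlgEquiv.restrictNormal_commutes g L z).symm⟩

omit [NumberField L] in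
/-- lift to `E` -/
theorem exists_lift13 (ι : L →ₐ[k] E) (σ : L ≃ₐ[k] L) :
    ∃ g : E ≃ₐ[k] E, ∀ z, g (ι z) = ι (σ z) := by
  let _ : Algebra L E := ι.toRingHom.toAlgebra
  have : IsScalarTower k L E := IsScalarTower.of_algebraMap_eq fun x => (ι.commutes x).symm
  have hn : Normal k E := by
    have : IsAlgClosure k E := ⟨inferInstance, inferInstance⟩
    exact IsAlgClosure.normal k E
  exact ⟨σ.liftNormal E, fun z => AlgEquiv.liftNormal_commutes σ E z⟩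

omit [NumberField L] [IsGalois k L] in
/-- an element fixed by the automorphisms which fix `L` lies in `L` -/
theorem mem_range13 (ι : L →ₐ[k] E) {y : E}
    (h : ∀ g : E ≃ₐ[k] E, (∀ z, g (ι z) = ι z) → g y = y) : ∃ z, ι z = y := by
  have hn : IsGalois k E := by
    have : IsAlgClosure k E := ⟨inferInstance, inferInstance⟩
    have := IsAlgClosure.normal k E
    exact ⟨⟩
  have h1 := InfiniteGalois.fixedField_fixingSubgroup ι.fieldRange
  have h2 : y ∈ ι.fieldRange := by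
    rw [← h1]
    intro ⟨g, hg⟩
    rw [IntermediateField.mem_fixingSubgroup_iff] at hg
    exact h g fun z => hg _ ⟨z, rfl⟩
  obtain ⟨z, hz⟩ := h2
  exact ⟨z, hz⟩

variable {f : Polynomial k} (X : Ctx k L f) (ι : L →ₐ[k] E)

omit [IsAlgClosed E] [Algebra.IsAlgebraic k E] in
/-- inertia is trivial on the splitting field -/
theorem inert_triv13 (hgen : ∀ σ : L ≃ₐ[k] L, (∀ x ∈ X.Ω, σ x = x) → σ = 1) {v : Pr k} {p : ℕ}
    (hp : p.Prime) (hpM : ¬ p ∣ X.M) (hpv : (p : 𝓞 k) ∈ v.asIdeal) {O : ValuationSubring E}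
    (hO : ∀ z : L, ι z ∈ O ↔ (X.P v).valuation L z ≤ 1) {τ : E ≃ₐ[k] E}
    (hτ : Inert O τ.toRingEquiv) (z : L) : τ (ι z) = ι z := by
  obtain ⟨σ, hσ⟩ := exists_res13 ι τ
  have h1 : σ = 1 := by
    refine hgen σ fun x hx => ?_
    by_contra hne
    have hx' := (X.mem_Ω _).1 hx
    have h2 := X.sep p v (X.P v) (X.isOver hp hpM hpv) _ ((X.mem_Ω _).1 (X.conj_mem hx σ)) _ hx' hne
    have h3 : O.valuation (τ (ι x) - ι x) < 1 :=
      hτ.res (ι x) ((hO x).2 (X.int p v (X.P v) (X.isOver hp hpM hpv) x hx'))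
    rw [hσ, ← map_sub, lt_iff13 hO, h2] at h3
    exact lt_irrefl _ h3
  rw [hσ, h1]
  rfl

variable {v : Pr k} {p : ℕ} (hp : p.Prime) (hpM : ¬ p ∣ X.M) (hpv : (p : 𝓞 k) ∈ v.asIdeal)
  {O : ValuationSubring E} {F : E ≃ₐ[k] E} {p' n : ℕ} (hD : DecPt v O F p' n)
  (hO : ∀ z : L, ι z ∈ O ↔ (X.P v).valuation L z ≤ 1)

include hp hpM hpv in
omit [IsAlgClosed E] [Algebra.IsAlgebraic k E] in
theorem two13 (hO : ∀ z : L, ι z ∈ O ↔ (X.P v).valuation L z ≤ 1) : O.valuation (2 : E) = 1 := by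
  have h1 := (eq_iff13 hO 2).2 (X.two_unit hp hpM hpv)
  rwa [map_ofNat] at h1

include hp hpM hpv in
theorem isOdd_p13 : IsOdd v (p : k) := by
  have hp0 : (p : k) ≠ 0 := by exact_mod_cast hp.ne_zero
  rw [X.isOdd_iff hp hpM hpv hp0]
  refine ⟨-1, ?_⟩
  have e : (2 * (-1) + 1 : ℤ) = -1 := by norm_num
  rw [e, zpow_neg_one, mul_inv_cancel₀ hp0, map_one]

include hp hpM hpv hD hO in
omit [Algebra.IsAlgebraic k E] in
/-- the test inertia element and the square roots of `c` -/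
theorem tau_c13 {c : k} (hc : c ≠ 0) {τ : E ≃ₐ[k] E} (hτ : Inert O τ.toRingEquiv)
    (hτp : ∀ d : E, d ^ 2 = algebraMap k E (p : k) → τ d = -d) :
    (¬ IsOdd v c → ∀ d : E, d ^ 2 = algebraMap k E c → τ d = d) ∧
    (IsOdd v c → ∀ d : E, d ^ 2 = algebraMap k E c → τ d = -d) := by
  have h2 := two13 X ι hp hpM hpv hO
  have hp0 : (p : E) ≠ 0 := by
    have : CharZero E := charZero_of_injective_algebraMap (algebraMap k E).injective
    exact_mod_cast hp.ne_zero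
  have hpk : algebraMap k E (p : k) = (p : E) := map_natCast _ _
  constructor
  · intro h d hd
    obtain ⟨a, ha⟩ := X.ev_of_not_isOdd hp hpM hpv hc h
    have h3 : (d * (p : E) ^ a) ^ 2 = algebraMap k E (c * (p : k) ^ (2 * a)) := by
      rw [map_mul, map_zpow₀, hpk, ← hd, mul_pow, ← zpow_natCast, ← zpow_natCast, ← zpow_mul,
        mul_comm a]
      rfl
    have h4 := inert_sqrt13 hτ h2 (d := d * (p : E) ^ a)
      (by rw [h3, eq_iffk13 hD.above]; exact ha) (by rw [h3, AlgEquiv.commutes])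
    rw [map_mul, map_zpow₀, map_natCast] at h4
    exact mul_right_cancel₀ (zpow_ne_zero a hp0) h4
  · intro h d hd
    obtain ⟨a, ha⟩ := (X.isOdd_iff hp hpM hpv hc).1 h
    obtain ⟨s, hs⟩ := IsAlgClosed.exists_pow_nat_eq (algebraMap k E (p : k)) (n := 2) two_pos
    have hs0 : s ≠ 0 := by
      rintro rfl
      rw [zero_pow two_ne_zero, hpk] at hs
      exact hp0 hs.symm
    have h3 : (d * (p : E) ^ a * s) ^ 2 = algebraMap k E (c * (p : k) ^ (2 * a + 1)) := by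
      rw [map_mul, map_zpow₀, mul_pow, hs, hpk, ← hd, mul_pow, zpow_add₀ hp0, zpow_one,
        ← zpow_natCast ((p : E) ^ a), ← zpow_mul, mul_comm a, mul_assoc]
      rfl
    have h4 := inert_sqrt13 hτ h2 (d := d * (p : E) ^ a * s)
      (by rw [h3, eq_iffk13 hD.above]; exact ha) (by rw [h3, AlgEquiv.commutes])
    rw [map_mul, map_mul, map_zpow₀, map_natCast, hτp s hs] at h4
    have h5 : (d * (p : E) ^ a) * s = -(τ d) * (p : E) ^ a * s := by rw [← h4]; ring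
    have h6 := mul_right_cancel₀ (zpow_ne_zero a hp0) (mul_right_cancel₀ hs0 h5)
    linear_combination h6

include hp hpM hpv hO in
omit [Algebra.IsAlgebraic k E] in
/-- the parity of the valuation of `y` and the action of inertia on `√y` -/
theorem parity13 (hgen : ∀ σ : L ≃ₐ[k] L, (∀ x ∈ X.Ω, σ x = x) → σ = 1)
    {τ : E ≃ₐ[k] E} (hτ : Inert O τ.toRingEquiv)
    (hτp : ∀ d : E, d ^ 2 = algebraMap k E (p : k) → τ d = -d) {δ : E} (hδ : δ ≠ 0) {y : L}
    (hy : ι y = δ ^ 2) :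
    (τ δ = δ → Ev (X.P v) p y) ∧ (τ δ = -δ → Od (X.P v) p y) := by
  have h2 := two13 X ι hp hpM hpv hO
  have hcE : CharZero E := charZero_of_injective_algebraMap (algebraMap k E).injective
  have hp0 : (p : E) ≠ 0 := by exact_mod_cast hp.ne_zero
  have hpk : algebraMap k E (p : k) = (p : E) := map_natCast _ _
  obtain ⟨s, hs⟩ := IsAlgClosed.exists_pow_nat_eq (algebraMap k E (p : k)) (n := 2) two_pos
  have hs0 : s ≠ 0 := by
    rintro rfl
    rw [zero_pow two_ne_zero, hpk] at hs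
    exact hp0 hs.symm
  have hy0 : y ≠ 0 := by
    rintro rfl
    rw [map_zero] at hy
    exact pow_ne_zero 2 hδ hy.symm
  obtain ⟨a, ha⟩ := X.unifL p (X.P v) hp hpM (X.mem_P hpv) y hy0
  have h3 : (δ * s ^ a) ^ 2 = ι (y * (p : L) ^ a) := by
    rw [map_mul, map_zpow₀, map_natCast, hy, mul_pow, ← hpk, ← hs, ← zpow_natCast (s ^ a),
      ← zpow_mul, ← zpow_natCast s, ← zpow_mul, mul_comm a]
  have h4 := inert_sqrt13 hτ h2 (d := δ * s ^ a) (by rw [h3, eq_iff13 hO]; exact ha)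
    (by rw [h3]; exact inert_triv13 X ι hgen hp hpM hpv hO hτ _)
  rw [map_mul, map_zpow₀, hτp s hs] at h4
  have hsa : s ^ a ≠ 0 := zpow_ne_zero a hs0
  constructor
  · intro h5
    rcases Int.even_or_odd' a with ⟨b, hb | hb⟩
    · exact ⟨b, by rw [← hb]; exact ha⟩
    · exfalso
      have hodd : Odd a := ⟨b, hb⟩
      rw [h5, Odd.neg_zpow hodd] at h4
      have h6 : (2 : E) * (δ * s ^ a) = 0 := by linear_combination -h4
      rcases mul_eq_zero.1 h6 with h7 | h7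
      · exact two_ne_zero h7
      · exact mul_ne_zero hδ hsa h7
  · intro h5
    rcases Int.even_or_odd' a with ⟨b, hb | hb⟩
    · exfalso
      have heven : Even a := ⟨b, by omega⟩
      rw [h5, Even.neg_zpow heven] at h4
      have h6 : (2 : E) * (δ * s ^ a) = 0 := by linear_combination -h4
      rcases mul_eq_zero.1 h6 with h7 | h7
      · exact two_ne_zero h7
      · exact mul_ne_zero hδ hsa h7
    · exact ⟨b, by rw [← hb]; exact ha⟩

include hp hpM hpv hD hO in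
omit [IsAlgClosed E] [Algebra.IsAlgebraic k E] in
/-- Euler's criterion and the action of the Frobenius element on `√y` -/
theorem sign13 {N : ℕ} (hN : 0 < N) {δ : E} {y : L} (hy : ι y = δ ^ 2) {a : ℤ}
    (ha : (X.P v).valuation L (y * (p : L) ^ (2 * a)) = 1) {ε : ℤˣ}
    (hF : (F ^ N) δ = ((ε : ℤ) : E) * δ) : X.ch v N (y * (p : L) ^ (2 * a)) = ε := by
  have h2 := two13 X ι hp hpM hpv hO
  have hodd := X.nm_odd hp hpM hpv
  have hqn : Odd (nm v ^ N) := hodd.pow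
  have hpk : ι (p : L) = (p : E) := map_natCast _ _
  have h3 : (δ * (p : E) ^ a) ^ 2 = ι (y * (p : L) ^ (2 * a)) := by
    rw [map_mul, map_zpow₀, hpk, hy, mul_pow, ← zpow_natCast ((p : E) ^ a), ← zpow_mul,
      mul_comm a]
    rfl
  have hu2 : O.valuation ((δ * (p : E) ^ a) ^ 2) = 1 := by
    rw [h3, eq_iff13 hO]
    exact ha
  have hu : O.valuation (δ * (p : E) ^ a) = 1 := by
    rw [map_pow] at hu2
    exact (pow_eq_one_iff_of_nonneg zero_le two_ne_zero).1 hu2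
  have hFN := frob_pow29 hD.frob hN
  have h4 : O.valuation ((F ^ N) (δ * (p : E) ^ a) - (δ * (p : E) ^ a) ^ p' ^ (n * N)) < 1 :=
    hFN.frob _ ((O.valuation_le_one_iff _).1 hu.le)
  have e1 : p' ^ (n * N) = nm v ^ N := by rw [hD.norm, pow_mul]
  obtain ⟨w, hw⟩ : ∃ w, w = δ * (p : E) ^ a := ⟨_, rfl⟩
  have e2 : (F ^ N) w = ((ε : ℤ) : E) * w := by
    rw [hw, map_mul, hF, map_zpow₀, map_natCast]
    ring
  rw [← hw, e2, e1] at h4
  rw [← hw] at hu h3
  -- `w ^ q = w * (w ^ 2) ^ ((q - 1) / 2)`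
  have e3 : w ^ nm v ^ N = w * (w ^ 2) ^ ((nm v ^ N - 1) / 2) := by
    rw [← pow_mul]
    have h5 : 2 * ((nm v ^ N - 1) / 2) = nm v ^ N - 1 := by
      obtain ⟨j, hj⟩ := hqn
      omega
    rw [h5, ← pow_succ']
    congr 1
    obtain ⟨j, hj⟩ := hqn
    omega
  have e4 : ((ε : ℤ) : E) * w - w ^ nm v ^ N =
      w * (((ε : ℤ) : E) - (w ^ 2) ^ ((nm v ^ N - 1) / 2)) := by rw [e3]; ring
  rw [e4, map_mul, hu, one_mul, h3, ← map_pow] at h4
  obtain ⟨Y, hY⟩ : ∃ Y, Y = (y * (p : L) ^ (2 * a)) ^ ((nm v ^ N - 1) / 2) := ⟨_, rfl⟩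
  rw [← hY] at h4
  have hch : X.ch v N (y * (p : L) ^ (2 * a)) =
      if (X.P v).valuation L (Y - 1) < 1 then 1 else -1 := by rw [hY]; rfl
  rw [hch]
  rcases Int.units_eq_one_or ε with rfl | rfl
  · have h5 : (X.P v).valuation L (Y - 1) < 1 := by
      rw [← lt_iff13 hO, map_sub, map_one, Valuation.map_sub_swap]
      simpa using h4
    rw [if_pos h5]
  · have h5 : ¬ (X.P v).valuation L (Y - 1) < 1 := by
      intro h6
      rw [← lt_iff13 hO, map_sub, map_one] at h6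
      have h7 : O.valuation (-1 - ι Y) < 1 := by simpa using h4
      have h8 := Valuation.map_add_lt _ h6 h7
      have h9 : (ι Y - 1) + (-1 - ι Y) = -(2 : E) := by ring
      rw [h9, Valuation.map_neg, h2] at h8
      exact lt_irrefl _ h8
    rw [if_neg h5]

end main

/-- The roots of `f` in `L` are the branch points. -/
structure Gl {k K0 E U L : Type} [Field k] [NumberField k] [Field K0] [Field E] [Field U]
    [Algebra k K0] [Algebra k E] [Algebra E U] [Algebra K0 U] [Algebra k U] [Field L]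
    [NumberField L] [Algebra k L] [IsGalois k L] {f : Polynomial k} (h : K0)
    (Φ₁ : (E ≃ₐ[k] E) →* (U ≃+* U)) (X : Ctx k L f) (ι : L →ₐ[k] E)
    (θ : Place E (L0 E K0 (U := U)) → L) (bt : L → Place E (L0 E K0 (U := U))) : Prop where
  mem : ∀ b, BPl h b → θ b ∈ X.Ω
  bt_mem : ∀ x ∈ X.Ω, BPl h (bt x)
  bt_θ : ∀ b, BPl h b → bt (θ b) = b
  θ_bt : ∀ x ∈ X.Ω, θ (bt x) = x
  act : ∀ (g : E ≃ₐ[k] E) b b', BPl h b → BPl h b' →
    (Moves (Φ₁ g) _ b b' ↔ g (ι (θ b)) = ι (θ b'))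
  gen : ∀ σ : L ≃ₐ[k] L, (∀ x ∈ X.Ω, σ x = x) → σ = 1

/-- **BLOCK DATM.** -/
theorem exists_datM {k K0 E U L : Type} [Field k] [NumberField k] [Field K0] [Field E] [Field U]
    [Algebra k K0] [Algebra k E] [Algebra E U] [Algebra K0 U] [Algebra k U] [IsAlgClosed E]
    [Algebra.IsAlgebraic k E] [Field L]
    [NumberField L] [Algebra k L] [IsGalois k L] {f : Polynomial k} {h : K0}
    {Φ₁ : (E ≃ₐ[k] E) →* (U ≃+* U)} {X : Ctx k L f} {ι : L →ₐ[k] E}
    {θ : Place E (L0 E K0 (U := U)) → L} {bt : L → Place E (L0 E K0 (U := U))}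
    (G : Gl h Φ₁ X ι θ bt) {m : ℕ}
    {zz : Place E (L0 E K0 (U := U)) → Place E (L0 E K0 (U := U)) → U} {Bad : Set (Pr k)}
    (hBad : ∀ v ∈ Bad, ¬ Gd X.M v) {c : k} (hc : c ≠ 0)
    {δ : Place E (L0 E K0 (U := U)) → Place E (L0 E K0 (U := U)) → E}
    (hδ : IntDat h m Φ₁ zz Bad c δ) {O : Pr k → ValuationSubring E} {F : Pr k → (E ≃ₐ[k] E)}
    {p' n : Pr k → ℕ} (hdec : ∀ v, Gd X.M v → DecPt v (O v) (F v) (p' v) (n v) ∧
      (∀ z : L, ι z ∈ O v ↔ (X.P v).valuation L z ≤ 1) ∧ ∀ z : L, F v (ι z) = ι (X.F v z))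
    {S : Finset (Pr k)} (hS : ∀ v, v ∈ S ↔ Gd X.M v ∧ IsOdd v c)
    [Nonempty (Place E (NN E K0 2 (U := U)))] :
    ∃ (D : L → L → L) (t : Pr k → L) (P : Pr k → Place E (NN E K0 2 (U := U))),
      DatM X c S D t (fun v N x x' => sgn (Φ₁ (F v) ^ N) (P v) (zz (bt x) (bt x'))) ∧
      ∀ v ∈ S, OverPl (bt (t v)) (P v) ∧ ∃ Q : Place E (NN E K0 (2 ^ m) (U := U)),
        OverPl (P v) Q ∧ Moves (Φ₁ (F v)) _ Q Q := by
  classical
  -- the numbers `D`
  have hDex : ∀ x x' : L, ∃ y : L, x ∈ X.Ω → x' ∈ X.Ω → x ≠ x' →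
      ι y = δ (bt x) (bt x') ^ 2 := by
    intro x x'
    by_cases hx : x ∈ X.Ω ∧ x' ∈ X.Ω ∧ x ≠ x'
    · obtain ⟨hx, hx', hne⟩ := hx
      have hb := G.bt_mem x hx
      have hb' := G.bt_mem x' hx'
      have hbb : bt x ≠ bt x' := fun h1 => hne (by rw [← G.θ_bt x hx, h1, G.θ_bt x' hx'])
      obtain ⟨y, hy⟩ := mem_range13 ι (y := δ (bt x) (bt x') ^ 2) fun g hg =>
        hδ.eqv g _ _ _ _ hb hb' hbb ((G.act g _ _ hb hb).2 (hg _)) ((G.act g _ _ hb' hb').2 (hg _))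
      exact ⟨y, fun _ _ _ => hy⟩
    · exact ⟨0, fun h1 h2 h3 => absurd ⟨h1, h2, h3⟩ hx⟩
  choose D hDy using hDex
  have hbne : ∀ {x x' : L}, x ∈ X.Ω → x' ∈ X.Ω → x ≠ x' → bt x ≠ bt x' :=
    fun hx hx' hne h1 => hne (by rw [← G.θ_bt _ hx, h1, G.θ_bt _ hx'])
  have hδ0 : ∀ {x x' : L}, x ∈ X.Ω → x' ∈ X.Ω → x ≠ x' → δ (bt x) (bt x') ≠ 0 :=
    fun hx hx' hne => hδ.ne _ _ (G.bt_mem _ hx) (G.bt_mem _ hx') (hbne hx hx' hne)
  -- the local data
  have hloc : ∀ v : Pr k, ∃ (t : L) (P : Place E (NN E K0 2 (U := U))), v ∈ S →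
      t ∈ X.Ω ∧ X.F v t = t ∧ OverPl (bt t) P ∧
      (∃ Q : Place E (NN E K0 (2 ^ m) (U := U)), OverPl P Q ∧ Moves (Φ₁ (F v)) _ Q Q) ∧
      (∀ τ : E ≃ₐ[k] E, Inert (O v) τ.toRingEquiv →
        (∀ d : E, d ^ 2 = algebraMap k E c → τ d = -d) →
        ∀ b b', BPl h b → BPl h b' → b ≠ b' →
          ((b = bt t ∨ b' = bt t) → τ (δ b b') = -δ b b') ∧
          (b ≠ bt t → b' ≠ bt t → τ (δ b b') = δ b b')) ∧
      ∀ b b', BPl h b → BPl h b' → b ≠ b' → b ≠ bt t → b' ≠ bt t → ∀ N : ℕ,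
        Moves (Φ₁ (F v) ^ N) _ b b → Moves (Φ₁ (F v) ^ N) _ b' b' →
        (F v ^ N) (δ b b') = ((sgn (Φ₁ (F v) ^ N) P (zz b b') : ℤ) : E) * δ b b' := by
    intro v
    by_cases hv : v ∈ S
    · obtain ⟨hg, hodd⟩ := (hS v).1 hv
      obtain ⟨h1, h2, h3⟩ := hdec v hg
      obtain ⟨b₀, P, Q, hb, hP, hQ, hm, hmQ, hτ, hs⟩ :=
        hδ.odd v (fun h4 => hBad v h4 hg) hodd (O v) (F v) (p' v) (n v) h1
      refine ⟨θ b₀, P, fun _ => ?_⟩
      have e : bt (θ b₀) = b₀ := G.bt_θ b₀ hb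
      rw [e]
      refine ⟨G.mem b₀ hb, ?_, hP, ⟨Q, hQ, hmQ⟩, hτ, hs⟩
      have h5 := (G.act (F v) b₀ b₀ hb hb).1 hm
      rw [h3] at h5
      exact ι.injective h5
    · exact ⟨0, Classical.arbitrary _, fun h1 => absurd h1 hv⟩
  choose t P hl using hloc
  -- an inertia element which moves `√p`
  have htau : ∀ {p : ℕ} {v : Pr k}, p.Prime → ¬ p ∣ X.M → (p : 𝓞 k) ∈ v.asIdeal →
      ∃ τ : E ≃ₐ[k] E, Inert (O v) τ.toRingEquiv ∧
        ∀ d : E, d ^ 2 = algebraMap k E (p : k) → τ d = -d := fun {p v} hp hpM hpv =>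
    (hdec v ⟨p, hp, hpM, hpv⟩).1.odd _ (isOdd_p13 X hp hpM hpv)
  refine ⟨D, t, P, ?_, fun v hv => ⟨(hl v hv).2.2.1, (hl v hv).2.2.2.1⟩⟩
  refine ⟨hc, hS, ?_, ?_, fun v hv => (hl v hv).1, fun v hv => (hl v hv).2.1, ?_, ?_, ?_, ?_⟩
  · intro x hx x' hx' hne h0
    have h1 := hDy x x' hx hx' hne
    rw [h0, map_zero] at h1
    exact pow_ne_zero 2 (hδ0 hx hx' hne) h1.symm
  · intro σ x hx x' hx' hne
    obtain ⟨g, hg⟩ := exists_lift13 ι σ
    have hx1 := X.conj_mem hx σ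
    have hx1' := X.conj_mem hx' σ
    refine ι.injective (?_ : ι (σ (D x x')) = ι (D (σ x) (σ x')))
    rw [hDy _ _ hx1 hx1' (fun h' => hne (σ.injective h')), ← hg, hDy x x' hx hx' hne]
    refine hδ.eqv g _ _ _ _ (G.bt_mem x hx) (G.bt_mem x' hx') (hbne hx hx' hne) ?_ ?_
    · rw [G.act g _ _ (G.bt_mem x hx) (G.bt_mem _ hx1), G.θ_bt x hx, G.θ_bt _ hx1]
      exact hg x
    · rw [G.act g _ _ (G.bt_mem x' hx') (G.bt_mem _ hx1'), G.θ_bt x' hx', G.θ_bt _ hx1']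
      exact hg x'
  · intro p v hp hpM hpv hv x hx x' hx' hne
    have hg : Gd X.M v := ⟨p, hp, hpM, hpv⟩
    obtain ⟨h1, h2, h3⟩ := hdec v hg
    obtain ⟨τ, hτ, hτp⟩ := htau hp hpM hpv
    have hno : ¬ IsOdd v c := fun h4 => hv ((hS v).2 ⟨hg, h4⟩)
    refine (parity13 X ι hp hpM hpv h2 G.gen hτ hτp (hδ0 hx hx' hne) (hDy x x' hx hx' hne)).1 ?_
    exact hδ.even v (fun h4 => hBad v h4 hg) (O v) (F v) (p' v) (n v) h1 τ hτ
      ((tau_c13 X ι hp hpM hpv h1 h2 hc hτ hτp).1 hno) _ _ (G.bt_mem x hx) (G.bt_mem x' hx')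
      (hbne hx hx' hne)
  · intro p v hp hpM hpv hv x hx x' hx' hne hxt hxt'
    have hg : Gd X.M v := ⟨p, hp, hpM, hpv⟩
    obtain ⟨h1, h2, h3⟩ := hdec v hg
    obtain ⟨τ, hτ, hτp⟩ := htau hp hpM hpv
    refine (parity13 X ι hp hpM hpv h2 G.gen hτ hτp (hδ0 hx hx' hne) (hDy x x' hx hx' hne)).1 ?_
    exact ((hl v hv).2.2.2.2.1 τ hτ
      ((tau_c13 X ι hp hpM hpv h1 h2 hc hτ hτp).2 ((hS v).1 hv).2) _ _ (G.bt_mem x hx)
      (G.bt_mem x' hx') (hbne hx hx' hne)).2 (hbne hx (hl v hv).1 hxt) (hbne hx' (hl v hv).1 hxt')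
  · intro p v hp hpM hpv hv x hx x' hx' hne hxt
    have hg : Gd X.M v := ⟨p, hp, hpM, hpv⟩
    obtain ⟨h1, h2, h3⟩ := hdec v hg
    obtain ⟨τ, hτ, hτp⟩ := htau hp hpM hpv
    refine (parity13 X ι hp hpM hpv h2 G.gen hτ hτp (hδ0 hx hx' hne) (hDy x x' hx hx' hne)).2 ?_
    refine ((hl v hv).2.2.2.2.1 τ hτ
      ((tau_c13 X ι hp hpM hpv h1 h2 hc hτ hτp).2 ((hS v).1 hv).2) _ _ (G.bt_mem x hx)
      (G.bt_mem x' hx') (hbne hx hx' hne)).1 ?_
    rcases hxt with rfl | rfl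
    · exact Or.inl rfl
    · exact Or.inr rfl
  · intro p v hp hpM hpv hv x hx x' hx' hne hxt hxt' N hN hFx hFx' a ha
    have hg : Gd X.M v := ⟨p, hp, hpM, hpv⟩
    obtain ⟨h1, h2, h3⟩ := hdec v hg
    refine sign13 X ι hp hpM hpv h1 h2 hN (hDy x x' hx hx' hne) ha ?_
    have hpow : ∀ (N : ℕ) (z : L), (F v ^ N) (ι z) = ι ((X.F v ^ N) z) := by
      intro N
      induction N with
      | zero => intro z; rfl
      | succ N ih =>
        intro z
        rw [pow_succ, AlgEquiv.mul_apply, h3, ih, pow_succ, AlgEquiv.mul_apply]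
    refine (hl v hv).2.2.2.2.2 _ _ (G.bt_mem x hx) (G.bt_mem x' hx') (hbne hx hx' hne)
      (hbne hx (hl v hv).1 hxt) (hbne hx' (hl v hv).1 hxt') N ?_ ?_
    · rw [← map_pow, G.act _ _ _ (G.bt_mem x hx) (G.bt_mem x hx), G.θ_bt x hx, hpow, hFx]
    · rw [← map_pow, G.act _ _ _ (G.bt_mem x' hx') (G.bt_mem x' hx'), G.θ_bt x' hx', hpow, hFx']

end Pool.Agent.M
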