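import Pool.Agent.Helper13.M.DatM
import Pool.Agent.Helper88.HG.G4
import Pool.Agent.Helper59.M.NR

/-!
# Project M: preparations for the assembly
-/

set_option autoImplicit false
set_option linter.unusedSectionVars false

namespace Pool.Agent.M

open VC IntermediateField NumberField IsDedekindDomain Pool.Agent.SC Pool.Agent.L
open Pool.Agent.HG (Pr nm IsOdd Ctx Gd Ev Od DatM)

section below

variable {k E L : Type} [Field k] [NumberField k] [Field E] [Algebra k E] [Field L]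
  [NumberField L] [Algebra k L]

/-- the prime of `L` below `O` -/
theorem exists_below13 (ι : L →ₐ[k] E) {v : Pr k} {O : ValuationSubring E} {F : E ≃ₐ[k] E}
    {p n : ℕ} (hD : DecPt v O F p n) :
    ∃ P : Pr L, (∀ z : L, ι z ∈ O ↔ P.valuation L z ≤ 1) ∧
      P.asIdeal.comap (algebraMap (𝓞 k) (𝓞 L)) = v.asIdeal := by
  let R : ValuationSubring L := O.comap (ι : L →+* E)
  have hR : ∀ z, z ∈ R ↔ ι z ∈ O := fun z => Iff.rfl
  have hint : ∀ b : 𝓞 L, algebraMap (𝓞 L) L b ∈ R := by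
    intro b
    rw [hR]
    have h1 : IsIntegral ℤ (ι (b : L)) := (b.2 : IsIntegral ℤ (b : L)).map (ι : L →ₐ[k] E)
    have h2 : IsIntegral O (ι (b : L)) := h1.tower_top
    obtain ⟨y, hy⟩ := IsIntegrallyClosed.isIntegral_iff.mp h2
    change ι (b : L) ∈ O
    rw [← hy]
    exact y.2
  have hne : R ≠ ⊤ := by
    intro h
    have hp := hD.frob.residue
    have hcE : CharZero E := charZero_of_injective_algebraMap (algebraMap k E).injective
    have hp0 : (p : E) ≠ 0 := by exact_mod_cast hD.frob.prime.ne_zero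
    have h1 : ((p : L)⁻¹) ∈ R := by rw [h]; trivial
    rw [hR, map_inv₀, map_natCast, ← O.valuation_le_one_iff, map_inv₀] at h1
    have h2 : O.valuation (p : E) ≠ 0 := (Valuation.ne_zero_iff _).2 hp0
    rw [inv_le_one₀ (zero_lt_iff.2 h2)] at h1
    exact absurd hp (not_lt.2 h1)
  let P : Pr L := hosR R hint hne
  have hP : ∀ z : L, ι z ∈ O ↔ P.valuation L z ≤ 1 := by
    intro z
    rw [← hR, ← Valuation.mem_valuationSubring_iff, valuationSubring_hosR R hint hne]
  refine ⟨P, hP, ?_⟩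
  ext a
  rw [Ideal.mem_comap, ← Pool.Agent.HG.val_int_lt, ← Pool.Agent.HG.val_int_lt]
  have e : ((algebraMap (𝓞 k) (𝓞 L) a : 𝓞 L) : L) = algebraMap k L (a : k) :=
    ((IsScalarTower.algebraMap_apply (𝓞 k) k L a).symm.trans
      (IsScalarTower.algebraMap_apply (𝓞 k) (𝓞 L) L a)).symm
  rw [e, ← lt_iff13 hP, AlgHom.commutes]
  rw [Pool.Agent.HG.val_lt_iff, ← hD.above, map_inv₀, ← ValuationSubring.mem_nonunits_iff,
    ValuationSubring.mem_nonunits_iff_or, map_eq_zero]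

/-- the Frobenius element of `O` is one of the prime below -/
theorem frob_below13 {ι : L →ₐ[k] E} {v : Pr k} {O : ValuationSubring E} {F : E ≃ₐ[k] E}
    {p n : ℕ} (hD : DecPt v O F p n) {P : Pr L} (hP : ∀ z : L, ι z ∈ O ↔ P.valuation L z ≤ 1)
    {σ : L ≃ₐ[k] L} (hσ : ∀ z, F (ι z) = ι (σ z)) (z : L) (hz : P.valuation L z ≤ 1) :
    P.valuation L (σ z - z ^ nm v) < 1 := by
  rw [← lt_iff13 hP, map_sub, map_pow, ← hσ, hD.norm]
  exact hD.frob.frob _ ((hP z).2 hz)

end below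

/-- a number all of whose multiples exclude the finite set `Bad` -/
theorem exists_M13 {k : Type} [Field k] [NumberField k] {Bad : Set (Pr k)} (hB : Bad.Finite) :
    ∃ M : ℕ, M ≠ 0 ∧ ∀ N : ℕ, M ∣ N → ∀ v ∈ Bad, ¬ Gd N v := by
  classical
  choose p hp hpv using fun v : Pr k => Pool.Agent.HG.exists_prime v
  refine ⟨∏ v ∈ hB.toFinset, p v, Finset.prod_ne_zero_iff.2 fun v _ => (hp v).ne_zero, ?_⟩
  rintro N hN v hv ⟨q, hq, hqN, hqv⟩
  have h1 : p v = q := Pool.Agent.Helper88.HG.prime_unique (hp v) hq (hpv v) hqv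
  apply hqN
  rw [← h1]
  exact (Finset.dvd_prod_of_mem p (hB.mem_toFinset.2 hv)).trans hN

/-- The roots of `f` in `E` are the branch points. -/
structure GlE {k K0 E U : Type} [Field k] [Field K0] [Field E] [Field U] [Algebra k K0]
    [Algebra k E] [Algebra E U] [Algebra K0 U] [Algebra k U] (h : K0) (r : U) (f : Polynomial k)
    (θ : Place E (L0 E K0 (U := U)) → E) : Prop where
  sep : f.Separable
  noroot : ∀ a : k, Polynomial.eval a f ≠ 0
  root : ∀ b, BPl h b → Polynomial.aeval (θ b) f = 0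
  ex : ∀ x : E, Polynomial.aeval x f = 0 → ∃ b, BPl h b ∧ θ b = x
  inj : ∀ b b', BPl h b → BPl h b' → θ b = θ b' → b = b'
  act : ∀ (c : k) (Φ : (E ≃ₐ[k] E) →* (U ≃+* U)), c ≠ 0 → Act (K0 := K0) r c Φ →
    ∀ (g : E ≃ₐ[k] E) b b', BPl h b → BPl h b' → (Moves (Φ g) _ b b' ↔ g (θ b) = θ b')

theorem exists_glE (hNR : StmtNR) (hFB : StmtFB) {k K0 E U : Type} [Field k] [NumberField k]
    [Field K0] [Field E] [Field U] [Algebra k K0]
    [Algebra k E] [Algebra E U] [Algebra K0 U] [Algebra k U] [IsScalarTower k E U]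
    [IsScalarTower k K0 U] {h : K0} {r : U} (G : Geo k K0 E U h r) (hN : NoRatBranch k h)
    {c₀ : k} {Φ₀ : (E ≃ₐ[k] E) →* (U ≃+* U)} (hc₀ : c₀ ≠ 0) (hA₀ : Act (K0 := K0) r c₀ Φ₀) :
    ∃ (f : Polynomial k) (θ : Place E (L0 E K0 (U := U)) → E), GlE h r f θ := by
  classical
  have hclE : IsAlgClosed E := G.clE
  have halg : Algebra.IsAlgebraic k E := G.algE
  obtain ⟨hfix, hfin, hperm⟩ := hNR k K0 E U h r G
  obtain ⟨hp1, hp2, hp3, hp4⟩ := hperm c₀ Φ₀ hc₀ hA₀
  let B := {b : Place E (L0 E K0 (U := U)) // BPl h b}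
  have hBf : Finite B := hfin.to_subtype
  choose act hact hact' using hp1
  -- the action
  have hL0 : ∀ (g : E ≃ₐ[k] E) (x : U), x ∈ L0 E K0 (U := U) → Φ₀ g x ∈ L0 E K0 (U := U) :=
    fun g x hx => phi_mem59 hA₀ g hx
  have hone : ∀ b, act 1 b = b := by
    intro b
    refine (hact' 1 b b ?_).symm
    intro x hx hx'
    have h1 : Φ₀ 1 x = x := by rw [map_one]; rfl
    simp only [h1]
  have hmul : ∀ g g' b, act (g * g') b = act g (act g' b) := by
    intro g g' b
    refine (hact' (g * g') b _ ?_).symm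
    intro x hx hx'
    have h1 : Φ₀ (g * g') x = Φ₀ g (Φ₀ g' x) := by rw [map_mul]; rfl
    have h2 := hact g' b x hx (hL0 g' x hx)
    have h3 := hact g (act g' b) (Φ₀ g' x) (hL0 g' x hx) (hL0 g _ (hL0 g' x hx))
    rw [h2, h3]
    simp only [h1]
  let _ : MulAction (E ≃ₐ[k] E) B :=
    { smul := fun g b => ⟨act g b.1, (hp2 g b.1 _ (hact g b.1)).1 b.2⟩
      one_smul := fun b => Subtype.ext (hone b.1)
      mul_smul := fun g g' b => Subtype.ext (hmul g g' b.1) }
  have hsm : ∀ (g : E ≃ₐ[k] E) (b : B), ((g • b : B) : Place E (L0 E K0 (U := U))) = act g b.1 :=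
    fun g b => rfl
  obtain ⟨f, θ0, hsep, hdeg, hinj, hroot, hθ⟩ := hFB k E B fun b => by
    obtain ⟨L, hL, hLb⟩ := hp4 b.1
    exact ⟨L, hL, fun g hg => Subtype.ext (hact' g b.1 b.1 (hLb g hg)).symm⟩
  have hf0 : f ≠ 0 := hsep.ne_zero
  let θ : Place E (L0 E K0 (U := U)) → E := fun b => if hb : BPl h b then θ0 ⟨b, hb⟩ else 0
  have hθe : ∀ b (hb : BPl h b), θ b = θ0 ⟨b, hb⟩ := fun b hb => dif_pos hb
  refine ⟨f, θ, hsep, ?_, ?_, ?_, ?_, ?_⟩
  · intro a ha
    obtain ⟨b, hb⟩ := (hroot (algebraMap k E a)).1 (by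
      rw [Polynomial.aeval_algebraMap_apply]
      have : Polynomial.aeval a f = 0 := ha
      rw [this, map_zero])
    obtain ⟨σ, hσ⟩ := hfix c₀ Φ₀ hc₀ hA₀ hN b.1 b.2
    apply hσ
    have h1 : σ • b = b := by
      apply hinj
      rw [← hθ, hb, AlgEquiv.commutes]
    have h2 := hact σ b.1
    have h3 : act σ b.1 = b.1 := by rw [← hsm, h1]
    rwa [h3] at h2
  · intro b hb
    rw [hθe b hb]
    exact (hroot _).2 ⟨_, rfl⟩
  · intro x hx
    obtain ⟨b, hb⟩ := (hroot x).1 hx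
    exact ⟨b.1, b.2, by rw [hθe b.1 b.2]; exact hb⟩
  · intro b b' hb hb' hbb
    rw [hθe b hb, hθe b' hb'] at hbb
    exact congrArg Subtype.val (hinj hbb)
  · intro c Φ hc hA g b b' hb hb'
    rw [← hp3 c Φ hc hA g b b', hθe b hb, hθe b' hb', hθ]
    constructor
    · intro h1
      have h2 := hact' g b b' h1
      congr 1
      exact Subtype.ext h2.symm
    · intro h1
      have h2 : act g b = b' := congrArg Subtype.val (hinj h1)
      rw [← h2]
      exact hact g b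

end Pool.Agent.M
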