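import Pool.Agent.Helper13.M.Fin1
import Pool.Agent.Helper99.L.CT
import Pool.Agent.Helper22.HG.Der

/-!
# Project M: the splitting field; at most four branch points
-/

set_option autoImplicit false
set_option linter.unusedSectionVars false

namespace Pool.Agent.M

open VC IntermediateField NumberField IsDedekindDomain Pool.Agent.SC Pool.Agent.L
open Pool.Agent.HG (Pr nm IsOdd Ctx Gd Ev Od DatM StmtDer)

/-- the bound for the number of classes with the property `P` -/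
def Cnt {k : Type} [Field k] [NumberField k] (P : k → Prop) : Prop :=
  ∃ η C : ℝ, 0 < η ∧ 0 < C ∧ ∀ X : ℕ, 3 ≤ X → ∀ T : Finset k,
    (∀ c ∈ T, ∀ c' ∈ T, (∃ d : k, c = c' * d ^ 2) → c = c') →
    (∀ c ∈ T, c ≠ 0 ∧ Pool.Agent.HG.cond c ≤ X ∧ P c) → (T.card : ℝ) ≤ C * X / Real.log X ^ η

/-- square roots for all pairs -/
theorem exists_zz13 (hZ : StmtZ) {k K0 E U : Type} [Field k] [NumberField k]
    [Field K0] [Field E] [Field U] [Algebra k K0]
    [Algebra k E] [Algebra E U] [Algebra K0 U] [Algebra k U] [IsScalarTower k E U]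
    [IsScalarTower k K0 U] {h : K0} {r : U} (G : Geo k K0 E U h r) :
    ∃ zz : Place E (L0 E K0 (U := U)) → Place E (L0 E K0 (U := U)) → U,
      ∀ b b', BPl h b → BPl h b' → b ≠ b' → IsZ b b' (zz b b') := by
  classical
  have h1 : ∀ b b' : Place E (L0 E K0 (U := U)), ∃ z : U, BPl h b → BPl h b' → b ≠ b' →
      IsZ b b' z := by
    intro b b'
    by_cases hb : BPl h b ∧ BPl h b' ∧ b ≠ b'
    · obtain ⟨z, hz⟩ := hZ k K0 E U h r G b b' hb.1 hb.2.1 hb.2.2
      exact ⟨z, fun _ _ _ => hz⟩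
    · exact ⟨0, fun h1 h2 h3 => absurd ⟨h1, h2, h3⟩ hb⟩
  choose zz hzz using h1
  exact ⟨zz, hzz⟩

section glL

variable {k K0 E U : Type} [Field k] [NumberField k] [Field K0] [Field E] [IsAlgClosed E]
  [Field U] [Algebra k K0] [Algebra k E] [Algebra E U] [Algebra K0 U] [Algebra k U]
  {L : Type} [Field L] [NumberField L] [Algebra k L] [IsGalois k L]
  {h : K0} {r : U} {f : Polynomial k} {θ : Place E (L0 E K0 (U := U)) → E} (Gl : GlE h r f θ)
  (ι : L →ₐ[k] E) (hs : (f.map (algebraMap k L)).Splits)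

include Gl hs in
/-- the branch points and the roots in `L` -/
theorem exists_root13 {b : Place E (L0 E K0 (U := U))} (hb : BPl h b) :
    ∃ x ∈ f.rootSet L, ι x = θ b := by
  have h1 : θ b ∈ f.rootSet E := by
    rw [Polynomial.mem_rootSet]
    exact ⟨Gl.sep.ne_zero, Gl.root b hb⟩
  rw [← Polynomial.Splits.image_rootSet hs ι] at h1
  exact h1

include Gl in
theorem exists_place13 {x : L} (hx : x ∈ f.rootSet L) : ∃ b, BPl h b ∧ θ b = ι x := by
  refine Gl.ex (ι x) ?_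
  rw [Polynomial.mem_rootSet] at hx
  rw [Polynomial.aeval_algHom_apply, hx.2, map_zero]

end glL

open scoped Classical in
/-- at most four branch points -/
theorem caseA (hFR : StmtFR) (hFIN : StmtFIN) (hZ : StmtZ) (hINT : StmtINT) (hCT : StmtCT)
    (hDer : StmtDer) {k K0 E U : Type} [Field k] [NumberField k]
    [Field K0] [Field E] [Field U] [Algebra k K0]
    [Algebra k E] [Algebra E U] [Algebra K0 U] [Algebra k U] [IsScalarTower k E U]
    [IsScalarTower k K0 U] {h : K0} {r : U} (G : Geo k K0 E U h r)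
    {f : Polynomial k} {θ : Place E (L0 E K0 (U := U)) → E} (Gl : GlE h r f θ)
    (hdeg : f.natDegree ≤ 4) :
    Cnt (fun c : k => ∃ Φ : (E ≃ₐ[k] E) →* (U ≃+* U), Act (K0 := K0) r c Φ) := by
  have hclE : IsAlgClosed E := G.clE
  have halg : Algebra.IsAlgebraic k E := G.algE
  let L := f.SplittingField
  have : NumberField L := NumberField.of_module_finite k L
  have : IsGalois k L := IsGalois.of_separable_splitting_field Gl.sep
  have hsplit : (f.map (algebraMap k L)).Splits := Polynomial.SplittingField.splits f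
  let ι : L →ₐ[k] E := IsAlgClosed.lift
  obtain ⟨I, hI, c₁, Φ₁, hΦ₁, hcls⟩ := hFIN k K0 E U h r G 1
  obtain ⟨zz, hzz⟩ := exists_zz13 hZ G
  choose Bad hBad hint using fun i => hINT k K0 E U h r G 1 le_rfl (c₁ i) (Φ₁ i) (hΦ₁ i).1
    (hΦ₁ i).2 zz hzz
  obtain ⟨B, hB⟩ := Pool.Agent.HG.exists_B5 k
  let Ω : Finset L := (f.rootSet_finite L).toFinset
  have hΩ : ∀ x, x ∈ Ω ↔ x ∈ f.rootSet L := fun x => Set.Finite.mem_toFinset _
  obtain ⟨δ, C, Q, hδ, hQ, hsum⟩ := hDer k L Ω (by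
    intro σ x hx
    rw [hΩ, Polynomial.mem_rootSet] at hx ⊢
    refine ⟨hx.1, ?_⟩
    have h1 : Polynomial.aeval (σ x) f = σ (Polynomial.aeval x f) :=
      Polynomial.aeval_algHom_apply (σ : L →ₐ[k] L) x f
    rw [h1, hx.2, map_zero]) (by
    rintro x hx a rfl
    rw [hΩ, Polynomial.mem_rootSet, Polynomial.aeval_algebraMap_apply, map_eq_zero] at hx
    exact Gl.noroot a (by rw [← hx.2]; rfl)) (by
    refine le_trans ?_ hdeg
    have h1 : Ω.card = (f.rootSet L).ncard := (Set.ncard_eq_toFinset_card _ _).symm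
    rw [h1]
    exact Polynomial.ncard_rootSet_le f L) B hB
  obtain ⟨M₁, hM₁, hroots⟩ := Pool.Agent.Helper88.HG.exists_M_roots k L f
  have hBall : ((⋃ i, Bad i) ∪ {v : Pr k | ¬ Gd M₁ v}).Finite :=
    (Set.finite_iUnion hBad).union (Pool.Agent.Helper88.HG.finite_bad k hM₁)
  obtain ⟨η, C', hη, hT⟩ := hCT k B hB δ C Q _ hBall hδ hsum
  refine ⟨η, |C'| + 1, hη, by positivity, fun X hX T hT1 hT2 => ?_⟩
  have h1 := hT X hX T hT1 (fun c hc => by
    obtain ⟨g1, g2, Φ, g3⟩ := hT2 c hc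
    refine ⟨g1, g2, fun v hv hvB hodd => ?_⟩
    rw [Set.mem_union, not_or] at hvB
    obtain ⟨hvB1, hvB2⟩ := hvB
    have hgd : Gd M₁ v := not_not.1 hvB2
    obtain ⟨O, F, p, n, hD⟩ := hFR k E v
    obtain ⟨P, hP, hPv⟩ := exists_below13 ι hD
    obtain ⟨i, hi⟩ := hcls c Φ g1 g3
    obtain ⟨δ', hδ'⟩ := hint i c Φ g1 g3 hi
    obtain ⟨b₀, _, _, hb, _, _, hm, _⟩ :=
      hδ'.odd v (fun h4 => hvB1 (Set.mem_iUnion.2 ⟨i, h4⟩)) hodd O F p n hD
    have hF := (Gl.act (c₁ i) (Φ₁ i) (hΦ₁ i).1 (hΦ₁ i).2 F b₀ b₀ hb hb).1 hm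
    obtain ⟨x, hx, hxb⟩ := exists_root13 Gl ι hsplit hb
    rw [← hxb] at hF
    obtain ⟨q, hq, hqM, hqv⟩ := hgd
    have hx1 := (hroots M₁ q v P dvd_rfl ⟨hq, hqM, hqv, hPv⟩).1 x hx
    refine hQ v hv P hPv x ((hΩ x).2 hx) ?_
    have h2 := hD.frob.frob (ι x) ((hP x).2 hx1)
    have h3 : F.toRingEquiv (ι x) = ι x := hF
    rw [h3, ← hD.norm, ← map_pow, ← map_sub, lt_iff13 hP, Valuation.map_sub_swap] at h2
    exact h2)
  refine h1.trans ?_
  have hlog : 0 ≤ Real.log X := Real.log_natCast_nonneg X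
  have h2 : (0 : ℝ) ≤ X := Nat.cast_nonneg X
  refine div_le_div_of_nonneg_right ?_ (Real.rpow_nonneg hlog η)
  exact mul_le_mul_of_nonneg_right (by linarith [le_abs_self C']) h2

end Pool.Agent.M
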