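import Pool.Agent.Helper13.M.Fin2
import Pool.Agent.Helper13.M.DatM
import Pool.Agent.Helper13.HG2.Cls
import Pool.Agent.Helper99.M.MU
import Pool.Agent.Helper59.M.NR

/-!
# Project M: preparations for the case of many branch points
-/

set_option autoImplicit false
set_option linter.unusedSectionVars false

namespace Pool.Agent.M

open VC IntermediateField NumberField IsDedekindDomain Pool.Agent.SC Pool.Agent.L
open Pool.Agent.HG (Pr nm IsOdd Ctx Gd Ev Od DatM)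

/-- a bound for finitely many kinds of sets -/
theorem cover13 {H P : Type} [Finite H] (nmf : Finset P → ℕ) (BadP : H → Finset P → Prop)
    (h : ∀ i, ∃ η C : ℝ, 0 < η ∧ 0 < C ∧ ∀ Y : ℕ, 3 ≤ Y → ∀ S : Finset (Finset P),
      (∀ c ∈ S, nmf c ≤ Y ∧ BadP i c) → (S.card : ℝ) ≤ C * Y / Real.log Y ^ η) :
    ∃ η C : ℝ, 0 < η ∧ 0 < C ∧ ∀ Y : ℕ, 3 ≤ Y → ∀ S : Finset (Finset P),
      (∀ c ∈ S, nmf c ≤ Y ∧ ∃ i, BadP i c) → (S.card : ℝ) ≤ C * Y / Real.log Y ^ η := by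
  classical
  have : Fintype H := Fintype.ofFinite H
  choose η C hη hC hY' using h
  obtain ⟨η₀, hη₀⟩ : ∃ η₀ : ℝ, η₀ = ∏ h, min (η h) 1 := ⟨_, rfl⟩
  have hη₀0 : 0 < η₀ := by
    rw [hη₀]
    exact Finset.prod_pos fun h _ => lt_min (hη h) one_pos
  have hη₀le : ∀ h, η₀ ≤ η h := by
    intro h
    rw [hη₀, ← Finset.mul_prod_erase Finset.univ (fun h => min (η h) 1) (Finset.mem_univ h)]
    have h1 : ∏ h ∈ Finset.univ.erase h, min (η h) 1 ≤ 1 :=
      Finset.prod_le_one (fun h _ => (lt_min (hη h) one_pos).le) fun h _ => min_le_right _ _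
    have h2 : 0 < min (η h) 1 := lt_min (hη h) one_pos
    have h3 : min (η h) 1 ≤ η h := min_le_left _ _
    nlinarith
  have hC0 : 0 ≤ ∑ h, C h := Finset.sum_nonneg fun h _ => (hC h).le
  refine ⟨η₀, ∑ h, C h + 1, hη₀0, by linarith, fun Y hY3 S hS => ?_⟩
  have hlY : 1 ≤ Real.log Y := by
    rw [← Real.log_exp 1]
    refine Real.log_le_log (Real.exp_pos 1) ?_
    have h1 : (3 : ℝ) ≤ Y := by exact_mod_cast hY3
    exact Real.exp_one_lt_d9.le.trans (by linarith)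
  have hlp : 0 < Real.log Y ^ η₀ := Real.rpow_pos_of_pos (by linarith) _
  have hY0 : (0 : ℝ) ≤ Y := Nat.cast_nonneg Y
  have h2 : ∀ i : H, ((S.filter fun A => BadP i A).card : ℝ) ≤ C i * Y / Real.log Y ^ η₀ := by
    intro i
    refine (hY' i Y hY3 _ ?_).trans ?_
    · intro A hA
      obtain ⟨h3, h4⟩ := Finset.mem_filter.1 hA
      exact ⟨(hS A h3).1, h4⟩
    · refine div_le_div_of_nonneg_left (mul_nonneg (hC i).le hY0) hlp ?_
      exact Real.rpow_le_rpow_of_exponent_le hlY (hη₀le i)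
  have hcov : S ⊆ Finset.univ.biUnion fun i : H => S.filter fun A => BadP i A := by
    intro A hA
    obtain ⟨_, i, hi⟩ := hS A hA
    exact Finset.mem_biUnion.2 ⟨i, Finset.mem_univ _, Finset.mem_filter.2 ⟨hA, hi⟩⟩
  have h1 := (Finset.card_le_card hcov).trans Finset.card_biUnion_le
  calc (S.card : ℝ) ≤ ∑ i : H, ((S.filter fun A => BadP i A).card : ℝ) := by exact_mod_cast h1
    _ ≤ ∑ i : H, C i * (Y : ℝ) / Real.log Y ^ η₀ := Finset.sum_le_sum fun i _ => h2 i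
    _ = (∑ i, C i) * Y / Real.log Y ^ η₀ := by rw [← Finset.sum_div, ← Finset.sum_mul]
    _ ≤ (∑ i, C i + 1) * Y / Real.log Y ^ η₀ := by
        refine div_le_div_of_nonneg_right ?_ hlp.le
        exact mul_le_mul_of_nonneg_right (by linarith) hY0

section act

variable {k K0 E U : Type} [Field k] [NumberField k] [Field K0] [Field E] [Field U] [Algebra k K0]
  [Algebra k E] [Algebra E U] [Algebra K0 U] [Algebra k U] [IsScalarTower k E U]
  [IsScalarTower k K0 U] {h : K0} {r : U} (G : Geo k K0 E U h r) {c : k}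
  {Φ : (E ≃ₐ[k] E) →* (U ≃+* U)} (hA : Act (K0 := K0) r c Φ)

include G hA in
theorem ur_act13 (g : E ≃ₐ[k] E) {n : ℕ} {w : U} (hw : UR E K0 n w) : UR E K0 n (Φ g w) := by
  have hcl := G.clE
  exact map_UR99 G.ff (Φ g) (Φ g⁻¹) g (hA.const g) (hA.fixK g) (fun e => hA.const g⁻¹ e)
    (hA.fixK g⁻¹) (phi_inv59 Φ g) (phi_inv59' Φ g) hw

include G hA in
/-- `QM` for conjugates -/
theorem qm_conj13 {m : ℕ} {σ : E ≃ₐ[k] E} (h : QM E K0 m (Φ σ)) (g : E ≃ₐ[k] E) :
    QM E K0 m (Φ (g * σ * g⁻¹)) := by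
  obtain ⟨a, ha, hc, w, hw, hne⟩ := h
  have e1 : ∀ e : E, Φ g⁻¹ (algebraMap E U e) = algebraMap E U (g⁻¹ e) := fun e => hA.const g⁻¹ e
  have e2 : ∀ e : E, g (g⁻¹ e) = e := fun e => g.apply_symm_apply e
  have e3 : ∀ x : U, Φ (g * σ * g⁻¹) x = Φ g (Φ σ (Φ g⁻¹ x)) := by
    intro x
    rw [map_mul, map_mul]
    rfl
  let a' : U ≃ₐ[E] U := AlgEquiv.ofRingEquiv (f := (Φ g⁻¹).trans (a.toRingEquiv.trans (Φ g))) (by
    intro e
    change Φ g (a (Φ g⁻¹ (algebraMap E U e))) = algebraMap E U e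
    rw [e1, a.commutes, hA.const, e2])
  have ha' : ∀ x : U, a' x = Φ g (a (Φ g⁻¹ x)) := fun x => rfl
  refine ⟨a', ?_, ?_, Φ g w, ur_act13 G hA g hw, ?_⟩
  · intro x hx
    rw [ha', ha _ (phi_mem59 hA g⁻¹ hx), phi_inv59]
  · intro x hx
    rw [ha', ha', e3, e3, phi_inv59', phi_inv59', hc _ (ur_act13 G hA g⁻¹ hx)]
  · intro h1
    rw [ha', phi_inv59'] at h1
    exact hne ((Φ g).injective h1)

include G hA in
/-- `QM` for powers -/
theorem qm_zpow13 {m : ℕ} {σ : E ≃ₐ[k] E} (h : QM E K0 m (Φ σ)) (n : ℤ) :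
    QM E K0 m (Φ (σ ^ n)) := by
  obtain ⟨a, ha, hc, w, hw, hne⟩ := h
  refine ⟨a, ha, ?_, w, hw, hne⟩
  let S : Subgroup (E ≃ₐ[k] E) :=
    { carrier := {g | ∀ w : U, UR E K0 (2 ^ m) w → a (Φ g w) = Φ g (a w)}
      one_mem' := by
        intro w _
        rw [map_one]
        rfl
      mul_mem' := by
        intro g g' hg hg' w hw
        have e : ∀ x, Φ (g * g') x = Φ g (Φ g' x) := by
          intro x
          rw [map_mul]
          rfl
        rw [e, e, hg _ (ur_act13 G hA g' hw), hg' _ hw]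
      inv_mem' := by
        intro g hg w hw
        have h1 := hg _ (ur_act13 G hA g⁻¹ hw)
        rw [phi_inv59] at h1
        rw [h1, phi_inv59'] }
  have h1 : σ ∈ S := hc
  exact S.zpow_mem h1 n

end act

open scoped Classical in
/-- the set of primes where `QM` may hold -/
theorem exists_Q13 (hW3 : StmtW3) {k K0 E U : Type} [Field k] [NumberField k] [Field K0] [Field E]
    [Field U] [Algebra k K0]
    [Algebra k E] [Algebra E U] [Algebra K0 U] [Algebra k U] [IsScalarTower k E U]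
    [IsScalarTower k K0 U] {h : K0} {r : U} (G : Geo k K0 E U h r) {c : k}
    {Φ : (E ≃ₐ[k] E) →* (U ≃+* U)} (hA : Act (K0 := K0) r c Φ) {m : ℕ}
    (L : IntermediateField k E) (hLf : FiniteDimensional k L) (hLg : IsGalois k L) {ε : ℝ}
    (hε : (Nat.card {τ : L ≃ₐ[k] L // ∃ σ : E ≃ₐ[k] E, (∀ x : L, σ x = τ x) ∧
      QM E K0 m (Φ σ)} : ℝ) ≤ ε * Nat.card (L ≃ₐ[k] L))
    (B : ℕ → Finset (Pr k)) (hB : ∀ x v, v ∈ B x ↔ nm v ≤ x) :
    ∃ (δ C : ℝ) (Bad Q : Set (Pr k)), δ ≤ ε ∧ Bad.Finite ∧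
      (∀ v ∉ Bad, ∀ (O : ValuationSubring E) (F : E ≃ₐ[k] E) (p n : ℕ), DecPt v O F p n →
        v ∉ Q → ¬ QM E K0 m (Φ F)) ∧
      ∀ x : ℕ, 2 ≤ x → |∑ v ∈ (B x).filter (· ∈ Q), (1 : ℝ) / nm v -
        δ * Real.log (Real.log x)| ≤ C := by
  have hclE : IsAlgClosed E := G.clE
  have halg : Algebra.IsAlgebraic k E := G.algE
  have hNF : NumberField L := NumberField.of_module_finite k L
  let C : Set (L ≃ₐ[k] L) := {τ | ∃ σ : E ≃ₐ[k] E, (∀ x : L, σ x = τ x) ∧ QM E K0 m (Φ σ)}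
  obtain ⟨C₀, Bad, Q, hBad, hQ, hsum⟩ := hW3 k L C (by
    rintro τ ⟨σ, hσ, hQM⟩ τ' hττ
    have h1 : τ' ∈ Subgroup.zpowers τ := by
      rw [← hττ]
      exact Subgroup.mem_zpowers τ'
    obtain ⟨n, rfl⟩ := Subgroup.mem_zpowers_iff.1 h1
    refine ⟨σ ^ n, ?_, qm_zpow13 G hA hQM n⟩
    -- the lift of a power
    let R : Subgroup (E ≃ₐ[k] E) := Subgroup.zpowers σ
    have hnat : ∀ (σ' : E ≃ₐ[k] E) (τ' : L ≃ₐ[k] L), (∀ x : L, σ' x = τ' x) → ∀ (j : ℕ) (x : L),
        (σ' ^ j) x = (τ' ^ j) x := by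
      intro σ' τ' h2 j
      induction j with
      | zero => intro x; rfl
      | succ j ih =>
        intro x
        rw [pow_succ, AlgEquiv.mul_apply, h2, ih, pow_succ, AlgEquiv.mul_apply]
    have hinv : ∀ x : L, σ⁻¹ x = τ⁻¹ x := by
      intro x
      have h3 := hσ (τ⁻¹ x)
      have h4 : τ (τ⁻¹ x) = x := τ.apply_symm_apply x
      rw [h4] at h3
      rw [← h3]
      exact σ.symm_apply_apply _
    intro x
    rcases Int.eq_nat_or_neg n with ⟨j, rfl | rfl⟩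
    · rw [zpow_natCast, zpow_natCast]
      exact hnat σ τ hσ j x
    · rw [zpow_neg, zpow_natCast, ← inv_pow, zpow_neg, zpow_natCast, ← inv_pow]
      exact hnat σ⁻¹ τ⁻¹ hinv j x) (by
    rintro τ ⟨σ, hσ, hQM⟩ g
    obtain ⟨g', hg'⟩ := exists_lift13 (E := E) L.val g
    have hg1 : ∀ x : L, g' x = g x := hg'
    have hg2 : ∀ x : L, g'⁻¹ x = g⁻¹ x := by
      intro x
      have h3 := hg1 (g⁻¹ x)
      have h4 : g (g⁻¹ x) = x := g.apply_symm_apply x
      rw [h4] at h3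
      rw [← h3]
      exact g'.symm_apply_apply _
    refine ⟨g' * σ * g'⁻¹, ?_, qm_conj13 G hA hQM g'⟩
    intro x
    rw [AlgEquiv.mul_apply, AlgEquiv.mul_apply, hg2, hσ, hg1, AlgEquiv.mul_apply,
      AlgEquiv.mul_apply]) B hB
  have hG0 : (0 : ℝ) < Nat.card (L ≃ₐ[k] L) := by
    have : 0 < Nat.card (L ≃ₐ[k] L) := Nat.card_pos
    exact_mod_cast this
  refine ⟨_, C₀, Bad, Q, ?_, hBad, ?_, hsum⟩
  · rw [div_le_iff₀ hG0]
    exact hε
  · intro v hv O F p n hD hvQ hQM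
    obtain ⟨P, hP, hPv⟩ := exists_below13 L.val hD
    obtain ⟨σ, hσ⟩ := exists_res13 L.val F
    apply hvQ
    rw [hQ v hv P σ hPv (frob_below13 hD hP hσ)]
    exact ⟨F, hσ, hQM⟩

section glue

variable {k K0 E U : Type} [Field k] [NumberField k] [Field K0] [Field E] [IsAlgClosed E]
  [Field U] [Algebra k K0] [Algebra k E] [Algebra E U] [Algebra K0 U] [Algebra k U]

/-- the branch points and the roots in the splitting field -/
theorem exists_gl13 {h : K0} {r : U} {f : Polynomial k} {θ : Place E (L0 E K0 (U := U)) → E}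
    (Gl' : GlE h r f θ) [NumberField f.SplittingField] [IsGalois k f.SplittingField]
    (ι : f.SplittingField →ₐ[k] E) (b₀ : Place E (L0 E K0 (U := U))) :
    ∃ (θL : Place E (L0 E K0 (U := U)) → f.SplittingField)
      (bt : f.SplittingField → Place E (L0 E K0 (U := U))),
      ∀ (X : Ctx k f.SplittingField f) (c : k) (Φ : (E ≃ₐ[k] E) →* (U ≃+* U)), c ≠ 0 →
        Act (K0 := K0) r c Φ → Gl h Φ X ι θL bt := by
  classical
  have hsplit : (f.map (algebraMap k f.SplittingField)).Splits := Polynomial.SplittingField.splits f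
  have h1 : ∀ b : Place E (L0 E K0 (U := U)), ∃ x : f.SplittingField, BPl h b →
      x ∈ f.rootSet f.SplittingField ∧ ι x = θ b := by
    intro b
    by_cases hb : BPl h b
    · obtain ⟨x, hx, hx'⟩ := exists_root13 Gl' ι hsplit hb
      exact ⟨x, fun _ => ⟨hx, hx'⟩⟩
    · exact ⟨0, fun h => absurd h hb⟩
  choose θL hθL using h1
  have h2 : ∀ x : f.SplittingField, ∃ b : Place E (L0 E K0 (U := U)),
      x ∈ f.rootSet f.SplittingField → BPl h b ∧ θ b = ι x := by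
    intro x
    by_cases hx : x ∈ f.rootSet f.SplittingField
    · obtain ⟨b, hb⟩ := exists_place13 Gl' ι hx
      exact ⟨b, fun _ => hb⟩
    · exact ⟨b₀, fun h => absurd h hx⟩
  choose bt hbt using h2
  refine ⟨θL, bt, fun X c Φ hc hA => ⟨?_, ?_, ?_, ?_, ?_, ?_⟩⟩
  · intro b hb
    rw [X.mem_Ω]
    exact (hθL b hb).1
  · intro x hx
    rw [X.mem_Ω] at hx
    exact (hbt x hx).1
  · intro b hb
    have h3 := hθL b hb
    have h4 := hbt _ h3.1
    exact Gl'.inj _ _ h4.1 hb (h4.2.trans h3.2)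
  · intro x hx
    rw [X.mem_Ω] at hx
    have h3 := hbt x hx
    have h4 := hθL _ h3.1
    exact ι.injective (h4.2.trans h3.2)
  · intro g b b' hb hb'
    rw [Gl'.act c Φ hc hA g b b' hb hb', (hθL b hb).2, (hθL b' hb').2]
  · intro σ hσ
    have h3 : Algebra.adjoin k (f.rootSet f.SplittingField) = ⊤ :=
      Polynomial.SplittingField.adjoin_rootSet f
    have h4 : (σ : f.SplittingField →ₐ[k] f.SplittingField) = AlgHom.id k f.SplittingField := by
      refine AlgHom.ext_of_adjoin_eq_top h3 fun x hx => ?_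
      exact hσ x ((X.mem_Ω x).2 hx)
    ext x
    exact DFunLike.congr_fun h4 x

theorem exists_pl13 [CharZero E] {b : Place E (L0 E K0 (U := U))} :
    Nonempty (Place E (NN E K0 2 (U := U))) := by
  obtain ⟨W, hW⟩ := _root_.SC.exists_place_over (K := E) (M := L0 E K0 (U := U)) (N := U) b
  obtain ⟨x, hx⟩ : ∃ x : L0 E K0 (U := U), x ∉ b.ring := by
    by_contra hcon
    push Not at hcon
    exact b.ne_top (eq_top_iff.mpr fun x _ => hcon x)
  exact ⟨resPlace W.ring W.algebraMap_mem _ ⟨x, L0_le99 x.2, fun h => hx ((hW x).1 h)⟩⟩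

end glue

end Pool.Agent.M
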