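import Pool.Agent.Helper13.M.Fin4
import Pool.Agent.Helper13.M.G1M
import Pool.Agent.Helper97.HG.Final
import Pool.Agent.Helper79.L.FR
import Pool.Agent.Helper29.M.LM
import Pool.Agent.Helper28.M.HF

/-!
# Project M: the final theorem from the blocks
-/

set_option autoImplicit false
set_option linter.unusedSectionVars false

namespace Pool.Agent.M

open VC IntermediateField NumberField IsDedekindDomain Pool.Agent.SC Pool.Agent.L
open Pool.Agent.HG (Pr nm IsOdd Ctx Gd Ev Od DatM StmtDer StmtSel StmtMert StmtSplit StmtBTL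
  StmtThue StmtG4 StmtG2 StmtG1M StmtG2M StmtG3M)

/-- The final theorem of project M. -/
def StmtFinM : Prop :=
  ∀ (k K0 : Type) [Field k] [NumberField k] [Field K0] [Algebra k K0] (h : K0), GoodCurve k h →
    NoRatBranch k h →
    ∃ η C : ℝ, 0 < η ∧ 0 < C ∧ ∀ X : ℕ, 3 ≤ X → ∀ T : Finset k,
      (∀ c ∈ T, ∀ c' ∈ T, (∃ d : k, c = c' * d ^ 2) → c = c') →
      (∀ c ∈ T, c ≠ 0 ∧ Pool.Agent.HG.cond c ≤ X ∧ HasSec h c) →
      (T.card : ℝ) ≤ C * X / Real.log X ^ η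

/-- The final theorem from the open blocks. -/
theorem finM_of (hTR : StmtTR) (hNR : StmtNR) (hFB : StmtFB) (hFIN : StmtFIN) (hZ : StmtZ)
    (hINT : StmtINT) (hLFT : StmtLFT) (hMU : StmtMU) (hQMD : StmtQMD) (hW3 : StmtW3) :
    StmtFinM := by
  intro k K0 _ _ _ _ h hG hN
  obtain ⟨E, U, _, _, _, _, _, _, _, _, r, G, hact⟩ := hTR k K0 h hG
  by_cases hex : ∃ (c₀ : k) (Φ₀ : (E ≃ₐ[k] E) →* (U ≃+* U)), c₀ ≠ 0 ∧ Act (K0 := K0) r c₀ Φ₀
  · obtain ⟨c₀, Φ₀, hc₀, hA₀⟩ := hex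
    obtain ⟨f, θ, Gl⟩ := exists_glE hNR hFB G hN hc₀ hA₀
    have key : Cnt (fun c : k => ∃ Φ : (E ≃ₐ[k] E) →* (U ≃+* U), Act (K0 := K0) r c Φ) := by
      rcases le_or_gt f.natDegree 4 with hd | hd
      · exact caseA stmtFR hFIN hZ hINT Pool.Agent.L.ct Pool.Agent.Helper22.HG.der G Gl hd
      · exact caseB hFIN hZ hINT hLFT hMU hQMD hW3 Pool.Agent.Helper22.HG.der Pool.Agent.HG.sel
          Pool.Agent.Helper21.HG.mert Pool.Agent.Helper21.HG.split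
          (Pool.Agent.HG.btl Pool.Agent.Helper21.HG.mert) Pool.Agent.Helper88.HG.thue
          Pool.Agent.Helper88.HG.g4 Pool.Agent.HG.g2 Pool.Agent.HG.g1M Pool.Agent.HG.g2M
          Pool.Agent.HG.g3M Pool.Agent.Helper99.HG.countR G Gl hd.le
    obtain ⟨η, C, hη, hC, hT⟩ := key
    exact ⟨η, C, hη, hC, fun X hX T hT1 hT2 => hT X hX T hT1 fun c hc =>
      ⟨(hT2 c hc).1, (hT2 c hc).2.1, hact c (hT2 c hc).1 (hT2 c hc).2.2⟩⟩
  · refine ⟨1, 1, one_pos, one_pos, fun X hX T hT1 hT2 => ?_⟩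
    have hT0 : T = ∅ := by
      rw [Finset.eq_empty_iff_forall_notMem]
      intro c hc
      obtain ⟨Φ, hΦ⟩ := hact c (hT2 c hc).1 (hT2 c hc).2.2
      exact hex ⟨c, Φ, (hT2 c hc).1, hΦ⟩
    rw [hT0, Finset.card_empty, Nat.cast_zero]
    have hlog : 0 ≤ Real.log X := Real.log_natCast_nonneg X
    positivity

end Pool.Agent.M
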